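import Mathlib

/-!
# Project QT (helper30): quartic twists `d y⁴ = x³ - x`, definitions and statements of the modules

Goal: for 100% of all integers `d` the curve `d y⁴ = x³ - x` (genus 3) has only the rational points
with `y = 0` and the one at infinity.
-/

set_option autoImplicit false

namespace Pool.Agent.D0H30.QT

open Finset

/-- `a` and `b` are in the same class modulo fourth powers modulo `p` -/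
def Q4 (p : ℕ) (a b : ℤ) : Prop := ∃ u : ZMod p, u ≠ 0 ∧ (a : ZMod p) = u ^ 4 * (b : ZMod p)

/-- the number of the classes modulo fourth powers modulo the odd prime `p` -/
noncomputable def gp (p : ℕ) : ℝ := if p % 4 = 1 then 4 else 2

/-- the product of the elements of a set (of primes) -/
def pr (S : Finset ℕ) : ℕ := ∏ p ∈ S, p

/-- all prime factors are at least `2 ^ k` -/
def Rough (k n : ℕ) : Prop := ∀ q : ℕ, q.Prime → q ∣ n → 2 ^ k ≤ q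

/-- admissible tuples -/
structure Adm (κ : Fin 4 → ℤ) (lam : Fin 4 → Fin 4 → ℤ) (N : ℕ) (D : Fin 4 → ℕ) : Prop where
  sq : ∀ i, Squarefree (D i)
  cop : ∀ i j, i ≠ j → (D i).Coprime (D j)
  le : ∏ i, D i ≤ N
  bad : ∀ i, ∀ p ∈ (D i).primeFactors, p ≠ 2 ∧ (∀ j, ¬ (p : ℤ) ∣ κ j) ∧
    ∀ j l, j ≠ l → ¬ (p : ℤ) ∣ lam j l
  cond : ∀ i, ∀ p ∈ (D i).primeFactors, ∀ j l, j ≠ i → l ≠ i →
    Q4 p (κ j * D j * lam i l) (κ l * D l * lam i j)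

open Classical in
/-- W: numbers without prime factors below `2 ^ k` with prescribed classes modulo fourth powers
modulo the primes of `M` (use `Pool.Agent.H95R2.Leh.ap_sieve` in blocks of length about `2^(k/2)`) -/
def P_W : Prop := ∃ C : ℝ, 1 ≤ C ∧ ∀ (k : ℕ) (M : Finset ℕ) (α β : ℕ → ℤ) (T : ℝ), 1 ≤ k → 0 ≤ T →
  (∀ p ∈ M, p.Prime ∧ p ≠ 2 ∧ ¬ (p : ℤ) ∣ α p ∧ ¬ (p : ℤ) ∣ β p) → pr M ^ 4 ≤ 2 ^ k →
  (((Icc 2 ⌊T⌋₊).filter (fun n => Rough k n ∧ ∀ p ∈ M, Q4 p (α p * n) (β p))).card : ℝ) ≤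
    C * (T / k) * ∏ p ∈ M, (gp p)⁻¹

/-- the tuple with the variables `n`, `r`, `s` -/
def tup (S : Fin 4 → Finset ℕ) (n r s : ℕ) : Fin 4 → ℕ :=
  ![n * pr (S 0), r * pr (S 1), s * pr (S 2), pr (S 3)]

/-- the triples `(n, r, s)` of a block -/
def Blk (κ : Fin 4 → ℤ) (lam : Fin 4 → Fin 4 → ℤ) (N k j : ℕ) (S : Fin 4 → Finset ℕ) :
    Set (ℕ × ℕ × ℕ) :=
  {t | 2 ≤ t.1 ∧ Rough k t.1 ∧ (t.2.1.Prime ∧ 2 ^ k ≤ t.2.1 ∧ t.2.1 < 2 ^ (k + 1)) ∧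
    ((t.2.2 = 1 ∧ j = 0) ∨ (t.2.2.Prime ∧ 2 ^ j ≤ t.2.2 ∧ t.2.2 < 2 ^ (j + 1))) ∧
    Adm κ lam N (tup S t.1 t.2.1 t.2.2)}

/-- BLK: the number of the triples of a block, for sets `M1`, `M2` of primes at which the conditions
are used: at the primes of `M1` two of them, at those of `M2` one -/
def P_BLK : Prop := ∃ C : ℝ, 1 ≤ C ∧ ∀ (κ : Fin 4 → ℤ) (lam : Fin 4 → Fin 4 → ℤ) (N k j : ℕ)
  (S : Fin 4 → Finset ℕ) (M1 M2 : Finset ℕ), 1 ≤ k → j ≤ k → (∀ i, ∀ p ∈ S i, p.Prime) →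
  Disjoint M1 M2 → M1 ⊆ S 0 ∪ S 1 ∪ S 2 ∪ S 3 → M2 ⊆ S 0 ∪ S 1 → pr M1 ^ 8 ≤ 2 ^ j →
  pr M2 ^ 8 ≤ 2 ^ k →
  (Blk κ lam N k j S).Finite ∧ ((Blk κ lam N k j S).ncard : ℝ) ≤
    C * (N / ∏ i, (pr (S i) : ℝ)) / ((k + 1) ^ 2 * (j + 1)) * (∏ p ∈ M1, (gp p)⁻¹ ^ 2) *
      ∏ p ∈ M2, (gp p)⁻¹

/-- `p` is small at the level `s` -/
def Sm (s p : ℕ) : Prop := (p : ℝ) ≤ 2 ^ ((s : ℝ) ^ (63 / 64 : ℝ))

/-- the odd primes below `2 ^ s` -/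
def OP (s : ℕ) : Finset ℕ := (range (2 ^ s)).filter (fun p => p.Prime ∧ p ≠ 2)

open Classical in
/-- the primes at which two conditions are used -/
noncomputable def M1 (j : ℕ) (S : Fin 4 → Finset ℕ) : Finset ℕ :=
  if pr ((S 0 ∪ S 1 ∪ S 2 ∪ S 3).filter (Sm j)) ^ 8 ≤ 2 ^ j then
    (S 0 ∪ S 1 ∪ S 2 ∪ S 3).filter (Sm j) else ∅

open Classical in
/-- the primes at which one condition is used -/
noncomputable def M2 (k j : ℕ) (S : Fin 4 → Finset ℕ) : Finset ℕ :=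
  if pr ((S 0 ∪ S 1).filter (fun p => 2 ^ (j + 1) ≤ p ∧ Sm k p)) ^ 8 ≤ 2 ^ k then
    (S 0 ∪ S 1).filter (fun p => 2 ^ (j + 1) ≤ p ∧ Sm k p) else ∅

/-- the primes which may occur in the four sets -/
def rg (k j : ℕ) : Fin 4 → Finset ℕ := ![OP k, OP (k + 1), OP (j + 1), OP (j + 1)]

/-- the systems of four pairwise disjoint sets of primes -/
def Sys (k j : ℕ) : Finset (Fin 4 → Finset ℕ) :=
  (Fintype.piFinset (fun i => (rg k j i).powerset)).filter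
    (fun S => ∀ i l, i ≠ l → Disjoint (S i) (S l))

/-- MERT: Mertens' theorem for all primes and for the primes `1 mod 4`
(`Pool.Agent.Y405.CQ.mertens_ap`) -/
def P_MERT : Prop := ∃ C : ℝ, 0 ≤ C ∧ ∀ s : ℝ, 0 ≤ s →
  |∑ p ∈ (Icc 1 ⌊(2 : ℝ) ^ s⌋₊).filter Nat.Prime, (1 : ℝ) / p - Real.log (s + 1)| ≤ C ∧
  |∑ p ∈ (Icc 1 ⌊(2 : ℝ) ^ s⌋₊).filter (fun p => p.Prime ∧ p % 4 = 1), (1 : ℝ) / p -
    1 / 2 * Real.log (s + 1)| ≤ C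

/-- SUM: the sum over the systems (Rankin's trick and Mertens) -/
def P_SUM : Prop := ∃ C : ℝ, 1 ≤ C ∧ ∀ k j : ℕ, 1 ≤ k → j ≤ k →
  ∑ S ∈ Sys k j, (∏ p ∈ M1 j S, (gp p)⁻¹ ^ 2) * (∏ p ∈ M2 k j S, (gp p)⁻¹) /
    ∏ i, (pr (S i) : ℝ) ≤ C * (k + 1 : ℝ) ^ (25 / 32 : ℝ) * (j + 1 : ℝ) ^ (-(1 / 16) : ℝ)

/-- two of the components have large prime factors -/
def Big (k0 : ℕ) (D : Fin 4 → ℕ) : Prop := ∃ i j, i ≠ j ∧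
  (∃ p ∈ (D i).primeFactors, 2 ^ k0 ≤ p) ∧ ∃ p ∈ (D j).primeFactors, 2 ^ k0 ≤ p

/-- DEC: decomposition of a tuple -/
def P_DEC : Prop := ∀ (k0 : ℕ) (κ : Fin 4 → ℤ) (lam : Fin 4 → Fin 4 → ℤ) (N : ℕ) (D : Fin 4 → ℕ),
  1 ≤ k0 → Adm κ lam N D → Big k0 D → ∃ (π : Equiv.Perm (Fin 4)) (k j : ℕ)
  (S : Fin 4 → Finset ℕ) (t : ℕ × ℕ × ℕ), k0 ≤ k ∧ k ≤ N ∧ j ≤ k ∧ S ∈ Sys k j ∧
    t ∈ Blk (κ ∘ π) (fun a b => lam (π a) (π b)) N k j S ∧ D ∘ π = tup S t.1 t.2.1 t.2.2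

/-- ENG: few tuples are `Big` -/
def P_ENG : Prop := ∀ ε : ℝ, 0 < ε → ∃ k0 : ℕ, 1 ≤ k0 ∧ ∀ (κ : Fin 4 → ℤ)
  (lam : Fin 4 → Fin 4 → ℤ) (N : ℕ), {D : Fin 4 → ℕ | Adm κ lam N D ∧ Big k0 D}.Finite ∧
    ({D : Fin 4 → ℕ | Adm κ lam N D ∧ Big k0 D}.ncard : ℝ) ≤ ε * N

/-- two of the components other than `i` are in different classes modulo fourth powers -/
def NC (κ : Fin 4 → ℤ) (lam : Fin 4 → Fin 4 → ℤ) (D : Fin 4 → ℕ) (i : Fin 4) : Prop :=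
  ∃ j l, j ≠ i ∧ l ≠ i ∧ ¬ ∃ t : ℚ,
    ((κ j * D j * lam i l : ℤ) : ℚ) = t ^ 4 * ((κ l * D l * lam i j : ℤ) : ℚ)

/-- SMALL: few nonconstant tuples are not `Big` -/
def P_SMALL : Prop := ∀ (κ : Fin 4 → ℤ) (lam : Fin 4 → Fin 4 → ℤ), (∀ j, κ j ≠ 0) →
  (∀ j l, j ≠ l → lam j l ≠ 0) → ∀ (k0 : ℕ) (ε : ℝ), 0 < ε → ∃ N0 : ℕ, ∀ N, N0 ≤ N →
    ({D : Fin 4 → ℕ | Adm κ lam N D ∧ ¬ Big k0 D ∧ ∀ i, NC κ lam D i}.ncard : ℝ) ≤ ε * N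

/-- the values of the forms `X, Z, X - Z, X + Z` at the zero of the form number `i` -/
def lam0 : Fin 4 → Fin 4 → ℤ := ![![1, 1, -1, 1], ![1, 1, 1, 1], ![1, 1, 1, 2], ![-1, 1, -2, 1]]

/-- the curve has a nontrivial rational point -/
def HasPt (d : ℤ) : Prop := ∃ x y : ℚ, y ≠ 0 ∧ (d : ℚ) * y ^ 4 = x ^ 3 - x

/-- FERM: Fermat's theorem (see `Pool.Agent.Y488.TM.Ex5`: `x⁴ - y⁴ = z²`) -/
def P_FERM : Prop := ∀ a b c : ℚ, a ^ 4 + b ^ 4 = 2 * c ^ 4 → a ^ 4 = b ^ 4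

/-- DESC: descent -/
def P_DESC : Prop := ∀ m : ℕ, 0 < m → ∃ K : Finset (Fin 4 → ℤ), (∀ κ ∈ K, ∀ i, κ i ≠ 0) ∧
  ∀ d : ℕ, Squarefree d → d.Coprime (2 * m) → HasPt ((m * d : ℕ) : ℤ) →
    ∃ κ ∈ K, ∃ D : Fin 4 → ℕ, Adm κ lam0 d D ∧ ∏ i, D i = d ∧ ∀ i, NC κ lam0 D i

/-- FIN: the density -/
def P_FIN : Prop := P_ENG → P_SMALL → P_DESC → Filter.Tendsto
  (fun N : ℕ => ({d : ℤ | d ≠ 0 ∧ d.natAbs ≤ N ∧ HasPt d}.ncard : ℝ) / N) Filter.atTop (nhds 0)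

end Pool.Agent.D0H30.QT
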