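import Pool.Agent.D0H30.QT.Stm

set_option autoImplicit false

namespace Pool.Agent.D0H30.QT

open Finset

/-- fourth-power-free part -/
lemma exists_free (n : ℕ) (hn : 0 < n) : ∃ κ a : ℕ, n = κ * a ^ 4 ∧ ∀ p : ℕ, p.Prime → ¬ p ^ 4 ∣ κ := by
  induction n using Nat.strong_induction_on with
  | _ n ih =>
    by_cases h : ∃ p : ℕ, p.Prime ∧ p ^ 4 ∣ n
    · obtain ⟨p, hp, n', rfl⟩ := h
      have hn' : 0 < n' := Nat.pos_of_ne_zero fun h0 => by simp [h0] at hn
      have hlt : n' < p ^ 4 * n' := by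
        have : 1 < p ^ 4 := Nat.one_lt_pow (by norm_num) hp.one_lt
        nlinarith
      obtain ⟨κ, a, h1, h2⟩ := ih n' hlt hn'
      exact ⟨κ, p * a, by rw [h1]; ring, h2⟩
    · push Not at h
      exact ⟨n, 1, by ring, h⟩

/-- numbers whose valuations are divisible by 4 away from `M` -/
lemma exists_kappa (M n : ℕ) (hM : 0 < M) (hn : 0 < n)
    (h : ∀ p : ℕ, p.Prime → ¬ p ∣ M → 4 ∣ n.factorization p) :
    ∃ κ a : ℕ, n = κ * a ^ 4 ∧ κ ∣ M ^ 3 ∧ 0 < κ ∧ 0 < a := by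
  obtain ⟨κ, a, h1, h2⟩ := exists_free n hn
  have hκ : κ ≠ 0 := by rintro rfl; simp at h1; omega
  have ha : a ≠ 0 := by rintro rfl; simp at h1; omega
  refine ⟨κ, a, h1, ?_, Nat.pos_of_ne_zero hκ, Nat.pos_of_ne_zero ha⟩
  rw [← Nat.factorization_le_iff_dvd hκ (pow_ne_zero 3 hM.ne')]
  intro p
  by_cases hp : p.Prime
  · have h3 : κ.factorization p ≤ 3 := by
      by_contra hc
      push Not at hc
      exact h2 p hp ((hp.pow_dvd_iff_le_factorization hκ).2 hc)
    rw [Nat.factorization_pow, Finsupp.smul_apply, smul_eq_mul]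
    by_cases hpM : p ∣ M
    · have : 1 ≤ M.factorization p := (hp.dvd_iff_one_le_factorization hM.ne').1 hpM
      omega
    · have h4 := h p hp hpM
      rw [h1, Nat.factorization_mul hκ (pow_ne_zero 4 ha), Nat.factorization_pow,
        Finsupp.add_apply, Finsupp.smul_apply, smul_eq_mul] at h4
      have h5 : 4 ∣ κ.factorization p := by omega
      omega
  · rw [Nat.factorization_eq_zero_of_not_prime _ hp]
    exact Nat.zero_le _

/-- the four forms -/
def LL (X Z : ℤ) : Fin 4 → ℤ := ![X, Z, X - Z, X + Z]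

lemma ll_cop {X Z : ℤ} (h : IsCoprime X Z) {p : ℕ} (hp : p.Prime) (hp2 : p ≠ 2) (i j : Fin 4)
    (hij : i ≠ j) (hi : (p : ℤ) ∣ LL X Z i) (hj : (p : ℤ) ∣ LL X Z j) : False := by
  have hpp : Prime (p : ℤ) := Nat.prime_iff_prime_int.1 hp
  have key : (p : ℤ) ∣ X → (p : ℤ) ∣ Z → False := fun h1 h2 =>
    hpp.not_isUnit (h.isUnit_of_dvd' h1 h2)
  have h2 : ∀ a : ℤ, (p : ℤ) ∣ 2 * a → (p : ℤ) ∣ a := by
    intro a ha
    rcases hpp.dvd_or_dvd ha with h3 | h3
    · exfalso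
      have : p ∣ 2 := by exact_mod_cast h3
      exact hp2 ((Nat.prime_dvd_prime_iff_eq hp Nat.prime_two).1 this)
    · exact h3
  fin_cases i <;> fin_cases j <;> simp only [LL, Fin.isValue, Matrix.cons_val_zero,
    Matrix.cons_val_one, Matrix.cons_val, Fin.zero_eta, Fin.mk_one, Fin.reduceFinMk, ne_eq,
    not_true_eq_false] at hi hj hij
  · exact key hi hj
  · exact key hi (by have := dvd_sub hi hj; rwa [sub_sub_cancel] at this)
  · exact key hi (by have := dvd_sub hj hi; rwa [add_sub_cancel_left] at this)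
  · exact key hj hi
  · exact key (by have := dvd_add hj hi; rwa [sub_add_cancel] at this) hi
  · exact key (by have := dvd_sub hj hi; rwa [add_sub_cancel_right] at this) hi
  · exact key hj (by have := dvd_sub hj hi; rwa [sub_sub_cancel] at this)
  · exact key (by have := dvd_add hi hj; rwa [sub_add_cancel] at this) hj
  · refine key (h2 _ ?_) (h2 _ ?_)
    · have := dvd_add hi hj; rwa [show X - Z + (X + Z) = 2 * X by ring] at this
    · have := dvd_sub hj hi; rwa [show X + Z - (X - Z) = 2 * Z by ring] at this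
  · exact key hj (by have := dvd_sub hi hj; rwa [add_sub_cancel_left] at this)
  · exact key (by have := dvd_sub hi hj; rwa [add_sub_cancel_right] at this) hj
  · refine key (h2 _ ?_) (h2 _ ?_)
    · have := dvd_add hj hi; rwa [show X - Z + (X + Z) = 2 * X by ring] at this
    · have := dvd_sub hi hj; rwa [show X + Z - (X - Z) = 2 * Z by ring] at this


lemma prodL {x y c : ℚ} (h : c * y ^ 4 = x ^ 3 - x) :
    ((∏ i, LL x.num x.den i : ℤ) : ℚ) = c * (y * x.den) ^ 4 := by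
  have hx : (x.num : ℚ) = x * x.den := (Rat.mul_den_eq_num x).symm
  rw [Fin.prod_univ_four]
  simp only [LL, Fin.isValue, Matrix.cons_val_zero, Matrix.cons_val_one, Matrix.cons_val]
  push_cast
  rw [hx]
  linear_combination -(x.den : ℚ) ^ 4 * h

lemma ne_of_prod {x y c : ℚ} (h : c * y ^ 4 = x ^ 3 - x) (hc : c ≠ 0) (hy : y ≠ 0) (i : Fin 4) :
    LL x.num x.den i ≠ 0 := by
  intro h0
  have h1 := prodL h
  have h2 : ∏ i, LL x.num x.den i = 0 := prod_eq_zero (mem_univ i) h0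
  rw [h2, Int.cast_zero] at h1
  have : (x.den : ℚ) ≠ 0 := by exact_mod_cast x.den_nz
  exact (mul_ne_zero hc (pow_ne_zero 4 (mul_ne_zero hy this))) h1.symm

lemma val_sum {x y : ℚ} {m d : ℕ} (hm : m ≠ 0) (hd : d ≠ 0) (hy : y ≠ 0)
    (h : ((m * d : ℕ) : ℚ) * y ^ 4 = x ^ 3 - x) {p : ℕ} (hp : p.Prime) (hpm : ¬ p ∣ m) :
    ∃ c : ℤ, ∑ j, ((LL x.num x.den j).natAbs.factorization p : ℤ) = d.factorization p + 4 * c := by
  have := Fact.mk hp
  have hmd : ((m * d : ℕ) : ℚ) ≠ 0 := by exact_mod_cast mul_ne_zero hm hd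
  have h1 := prodL h
  have hne := ne_of_prod h hmd hy
  have hden : (x.den : ℚ) ≠ 0 := by exact_mod_cast x.den_nz
  refine ⟨padicValRat p (y * x.den), ?_⟩
  have h2 := congrArg (padicValRat p) h1
  rw [padicValRat.mul hmd (pow_ne_zero 4 (mul_ne_zero hy hden)), padicValRat.pow,
    Nat.cast_mul, padicValRat.mul (by exact_mod_cast hm)
    (by exact_mod_cast hd), padicValRat.of_nat, padicValRat.of_nat,
    padicValNat.eq_zero_of_not_dvd hpm, padicValRat.of_int, Fin.prod_univ_four,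
    padicValInt.mul (mul_ne_zero (mul_ne_zero (hne 0) (hne 1)) (hne 2)) (hne 3),
    padicValInt.mul (mul_ne_zero (hne 0) (hne 1)) (hne 2), padicValInt.mul (hne 0) (hne 1)] at h2
  rw [Fin.sum_univ_four]
  simp only [Nat.factorization_def _ hp]
  unfold padicValInt at h2
  push_cast at h2 ⊢
  linarith


lemma cop_num_den (x : ℚ) : IsCoprime x.num (x.den : ℤ) := by
  rw [Int.isCoprime_iff_gcd_eq_one]
  exact x.reduced

section Main

variable {x y : ℚ} {m d : ℕ}

/-- the factorization data -/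
lemma gcd_fac (hd : d ≠ 0) {L : ℤ} (hL : L ≠ 0) (p : ℕ) :
    (Nat.gcd L.natAbs d).factorization p = min (L.natAbs.factorization p) (d.factorization p) := by
  rw [Nat.factorization_gcd (Int.natAbs_ne_zero.2 hL) hd, Finsupp.inf_apply]

lemma fac_le_one (hsq : Squarefree d) (p : ℕ) : d.factorization p ≤ 1 :=
  hsq.natFactorization_le_one p

lemma others_zero {X Z : ℤ} (h : IsCoprime X Z) {p : ℕ} (hp : p.Prime) (hp2 : p ≠ 2)
    {i : Fin 4} (hi : (LL X Z i).natAbs.factorization p ≠ 0) (j : Fin 4) (hj : j ≠ i) :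
    (LL X Z j).natAbs.factorization p = 0 := by
  by_contra h0
  have h1 : (p : ℤ) ∣ LL X Z i := by
    rw [Int.natCast_dvd]
    exact Nat.dvd_of_factorization_pos hi
  have h2 : (p : ℤ) ∣ LL X Z j := by
    rw [Int.natCast_dvd]
    exact Nat.dvd_of_factorization_pos h0
  exact ll_cop h hp hp2 j i hj h2 h1

lemma fac_mod (hm : m ≠ 0) (hsq : Squarefree d) (hy : y ≠ 0)
    (h : ((m * d : ℕ) : ℚ) * y ^ 4 = x ^ 3 - x) (i : Fin 4) {p : ℕ} (hp : p.Prime)
    (hpm : ¬ p ∣ 2 * m) :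
    4 ∣ ((LL x.num x.den i).natAbs / Nat.gcd (LL x.num x.den i).natAbs d).factorization p := by
  have hd : d ≠ 0 := hsq.ne_zero
  have hmd : ((m * d : ℕ) : ℚ) ≠ 0 := by exact_mod_cast mul_ne_zero hm hd
  have hne := ne_of_prod h hmd hy
  have hpm' : ¬ p ∣ m := fun hh => hpm (hh.mul_left 2)
  have hp2 : p ≠ 2 := by rintro rfl; exact hpm (dvd_mul_right 2 m)
  rw [Nat.factorization_div (Nat.gcd_dvd_left _ _), Finsupp.coe_tsub, Pi.sub_apply,
    gcd_fac hd (hne i)]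
  by_cases hi : (LL x.num x.den i).natAbs.factorization p = 0
  · rw [hi]; simp
  · obtain ⟨c, hc⟩ := val_sum hm hd hy h hp hpm'
    rw [sum_eq_single i (fun j _ hj => by
      rw [others_zero (cop_num_den x) hp hp2 hi j hj]; rfl) (fun hh => absurd (mem_univ i) hh)] at hc
    have h1 := fac_le_one hsq p
    have h2 : min ((LL x.num x.den i).natAbs.factorization p) (d.factorization p) =
        d.factorization p := by omega
    rw [h2]
    omega

lemma prod_gcd (hm : m ≠ 0) (hsq : Squarefree d) (hcop : d.Coprime (2 * m)) (hy : y ≠ 0)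
    (h : ((m * d : ℕ) : ℚ) * y ^ 4 = x ^ 3 - x) :
    ∏ i, Nat.gcd (LL x.num x.den i).natAbs d = d := by
  have hd : d ≠ 0 := hsq.ne_zero
  have hmd : ((m * d : ℕ) : ℚ) ≠ 0 := by exact_mod_cast mul_ne_zero hm hd
  have hne := ne_of_prod h hmd hy
  have hg : ∀ i, Nat.gcd (LL x.num x.den i).natAbs d ≠ 0 := fun i =>
    Nat.gcd_ne_zero_right hd
  refine Nat.eq_of_factorization_eq (prod_ne_zero_iff.2 fun i _ => hg i) hd fun p => ?_
  rw [Nat.factorization_prod (fun i _ => hg i), Finsupp.finsetSum_apply]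
  simp only [fun i => gcd_fac hd (hne i) p]
  by_cases hp : p.Prime
  · by_cases hpd : d.factorization p = 0
    · simp [hpd]
    · have hpd' : p ∣ d := Nat.dvd_of_factorization_pos hpd
      have hpm : ¬ p ∣ 2 * m := fun hh =>
        hp.one_lt.ne' (Nat.dvd_one.1 (hcop ▸ Nat.dvd_gcd hpd' hh))
      have hpm' : ¬ p ∣ m := fun hh => hpm (hh.mul_left 2)
      have hp2 : p ≠ 2 := by rintro rfl; exact hpm (dvd_mul_right 2 m)
      have h1 := fac_le_one hsq p
      obtain ⟨c, hc⟩ := val_sum hm hd hy h hp hpm'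
      obtain ⟨i, hi⟩ : ∃ i, (LL x.num x.den i).natAbs.factorization p ≠ 0 := by
        by_contra hcon
        push Not at hcon
        rw [sum_eq_zero (fun j _ => by rw [hcon j]; rfl)] at hc
        omega
      rw [sum_eq_single i (fun j _ hj => by
        rw [others_zero (cop_num_den x) hp hp2 hi j hj]; simp)
        (fun hh => absurd (mem_univ i) hh)]
      omega
  · rw [Nat.factorization_eq_zero_of_not_prime d hp]
    simp

end Main

/-- the forms at a prime dividing one of them -/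
lemma forms_mod {X Z : ℤ} (h : IsCoprime X Z) {p : ℕ} (hp : p.Prime) (i : Fin 4)
    (hi : (p : ℤ) ∣ LL X Z i) : ∃ s : ZMod p, s ≠ 0 ∧
    ∀ j, j ≠ i → ((LL X Z j : ℤ) : ZMod p) = (lam0 i j : ℤ) * s := by
  have hpp : Prime (p : ℤ) := Nat.prime_iff_prime_int.1 hp
  have key : ((X : ℤ) : ZMod p) = 0 → ((Z : ℤ) : ZMod p) = 0 → False := fun h1 h2 =>
    hpp.not_isUnit (h.isUnit_of_dvd' ((ZMod.intCast_zmod_eq_zero_iff_dvd _ _).1 h1)
      ((ZMod.intCast_zmod_eq_zero_iff_dvd _ _).1 h2))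
  have hi' : ((LL X Z i : ℤ) : ZMod p) = 0 := (ZMod.intCast_zmod_eq_zero_iff_dvd _ _).2 hi
  fin_cases i <;> simp only [LL, Fin.isValue, Matrix.cons_val_zero,
    Matrix.cons_val_one, Matrix.cons_val, Fin.zero_eta, Fin.mk_one, Fin.reduceFinMk] at hi'
  · refine ⟨(Z : ℤ), fun h2 => key hi' h2, fun j hj => ?_⟩
    fin_cases j <;> simp_all [LL, lam0]
  · refine ⟨(X : ℤ), fun h2 => key h2 hi', fun j hj => ?_⟩
    fin_cases j <;> simp_all [LL, lam0]
  · have h3 : ((X : ℤ) : ZMod p) = (Z : ℤ) := by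
      push_cast at hi'
      exact sub_eq_zero.1 hi'
    refine ⟨(Z : ℤ), fun h2 => key (h3.trans h2) h2, fun j hj => ?_⟩
    fin_cases j <;> simp_all [LL, lam0, two_mul]
  · have h3 : ((X : ℤ) : ZMod p) = -(Z : ℤ) := by
      push_cast at hi'
      exact eq_neg_of_add_eq_zero_left hi'
    refine ⟨(Z : ℤ), fun h2 => key (by rw [h3, h2, neg_zero]) h2, fun j hj => ?_⟩
    fin_cases j <;> simp_all [LL, lam0, two_mul]
    ring

lemma lam0_not_dvd {p : ℕ} (hp : p.Prime) (hp2 : p ≠ 2) (j l : Fin 4) : ¬ (p : ℤ) ∣ lam0 j l := by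
  have h1 : ¬ (p : ℤ) ∣ 1 := fun h => (Nat.prime_iff_prime_int.1 hp).not_isUnit (isUnit_of_dvd_one h)
  have h2 : ¬ (p : ℤ) ∣ 2 := fun h => hp2 ((Nat.prime_dvd_prime_iff_eq hp Nat.prime_two).1
    (by exact_mod_cast h))
  fin_cases j <;> fin_cases l <;> simp [lam0, h1, h2]

/-- points of constant type are trivial -/
lemma nonconst (hF : P_FERM) {X Z : ℤ} (hne : ∀ i, LL X Z i ≠ 0) (i : Fin 4)
    (h : ∀ j l, j ≠ i → l ≠ i → ∃ t : ℚ,
      ((LL X Z j * lam0 i l : ℤ) : ℚ) = t ^ 4 * ((LL X Z l * lam0 i j : ℤ) : ℚ)) : False := by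
  have hX : (X : ℚ) ≠ 0 := by exact_mod_cast hne 0
  have hZ : (Z : ℚ) ≠ 0 := by exact_mod_cast hne 1
  have hm : (X : ℚ) - Z ≠ 0 := by exact_mod_cast hne 2
  have hp : (X : ℚ) + Z ≠ 0 := by exact_mod_cast hne 3
  fin_cases i
  · obtain ⟨t, ht⟩ := h 2 1 (by decide) (by decide)
    obtain ⟨u, hu⟩ := h 3 1 (by decide) (by decide)
    simp [LL, lam0] at ht hu
    have h1 : t ^ 4 + u ^ 4 = 2 * 1 ^ 4 := by
      apply mul_right_cancel₀ hZ
      linear_combination ht - hu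
    have h2 := hF _ _ _ h1
    have h3 : (u ^ 4 : ℚ) = 1 := by linarith
    rw [h3] at hu
    exact hX (by linarith)
  · obtain ⟨t, ht⟩ := h 2 0 (by decide) (by decide)
    obtain ⟨u, hu⟩ := h 3 0 (by decide) (by decide)
    simp [LL, lam0] at ht hu
    have h1 : t ^ 4 + u ^ 4 = 2 * 1 ^ 4 := by
      apply mul_right_cancel₀ hX
      linear_combination -ht - hu
    have h2 := hF _ _ _ h1
    have h3 : (u ^ 4 : ℚ) = 1 := by linarith
    rw [h3] at hu
    exact hZ (by linarith)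
  · obtain ⟨t, ht⟩ := h 3 1 (by decide) (by decide)
    obtain ⟨u, hu⟩ := h 0 1 (by decide) (by decide)
    simp [LL, lam0] at ht hu
    have h1 : u ^ 4 + 1 ^ 4 = 2 * t ^ 4 := by
      apply mul_right_cancel₀ hZ
      linear_combination ht - hu
    have h2 := hF _ _ _ h1
    rw [h2] at hu
    exact hm (by linarith)
  · obtain ⟨t, ht⟩ := h 2 1 (by decide) (by decide)
    obtain ⟨u, hu⟩ := h 0 1 (by decide) (by decide)
    simp [LL, lam0] at ht hu
    have h1 : u ^ 4 + 1 ^ 4 = 2 * t ^ 4 := by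
      apply mul_right_cancel₀ hZ
      linear_combination hu - ht
    have h2 := hF _ _ _ h1
    rw [h2] at hu
    exact hp (by linarith)

theorem desc (hF : P_FERM) : P_DESC := by
  intro m hm
  refine ⟨Fintype.piFinset (fun _ => (Icc (-((2 * m : ℕ) : ℤ) ^ 3) (((2 * m : ℕ) : ℤ) ^ 3)).filter
    (fun z => z ≠ 0)), fun κ hκ i => (mem_filter.1 (Fintype.mem_piFinset.1 hκ i)).2, ?_⟩
  rintro d hsq hcop ⟨x, y, hy, h⟩
  rw [Int.cast_natCast] at h
  have hd : d ≠ 0 := hsq.ne_zero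
  have hmd : ((m * d : ℕ) : ℚ) ≠ 0 := by exact_mod_cast mul_ne_zero hm.ne' hd
  have hne := ne_of_prod h hmd hy
  have hcop' := cop_num_den x
  obtain ⟨L, hL⟩ : ∃ L : Fin 4 → ℤ, L = LL x.num x.den := ⟨_, rfl⟩
  obtain ⟨D, hD⟩ : ∃ D : Fin 4 → ℕ, D = fun i => Nat.gcd (L i).natAbs d := ⟨_, rfl⟩
  have hDd : ∀ i, D i ∣ d := fun i => by rw [hD]; exact Nat.gcd_dvd_right _ _
  have hDL : ∀ i, D i ∣ (L i).natAbs := fun i => by rw [hD]; exact Nat.gcd_dvd_left _ _
  have hL0 : ∀ i, L i ≠ 0 := fun i => by rw [hL]; exact hne i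
  have hD0 : ∀ i, D i ≠ 0 := fun i h0 => hd (by have := hDd i; rw [h0] at this; exact zero_dvd_iff.1 this)
  have hprod : ∏ i, D i = d := by rw [hD, hL]; exact prod_gcd hm.ne' hsq hcop hy h
  have hex : ∀ i, ∃ κ a : ℕ, (L i).natAbs / D i = κ * a ^ 4 ∧ κ ∣ (2 * m) ^ 3 ∧ 0 < κ ∧ 0 < a := by
    intro i
    refine exists_kappa (2 * m) _ (by omega) ?_ fun p hp hpm => ?_
    · exact Nat.div_pos (Nat.le_of_dvd (Int.natAbs_pos.2 (hL0 i)) (hDL i))
        (Nat.pos_of_ne_zero (hD0 i))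
    · rw [hD, hL]; exact fac_mod hm.ne' hsq hy h i hp hpm
  choose κ0 a h1 h2 h3 h4 using hex
  obtain ⟨κ, hκ⟩ : ∃ κ : Fin 4 → ℤ, κ = fun i => Int.sign (L i) * κ0 i := ⟨_, rfl⟩
  have hLe : ∀ i, L i = κ i * D i * (a i : ℤ) ^ 4 := by
    intro i
    have h5 : (L i).natAbs = κ0 i * a i ^ 4 * D i := by
      rw [← h1 i, Nat.div_mul_cancel (hDL i)]
    have h6 : L i = Int.sign (L i) * ((L i).natAbs : ℤ) := (Int.sign_mul_natAbs (L i)).symm
    rw [h5] at h6
    rw [hκ]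
    push_cast at h6
    exact h6.trans (by ring)
  have hκ0 : ∀ i, κ i ≠ 0 := fun i h0 => hL0 i (by rw [hLe i, h0]; ring)
  have hκabs : ∀ i, (κ i).natAbs = κ0 i := by
    intro i
    rw [hκ]
    simp only
    rw [Int.natAbs_mul, Int.natAbs_sign_of_ne_zero (hL0 i), one_mul, Int.natAbs_natCast]
  have hp2m : ∀ i, ∀ p ∈ (D i).primeFactors, p.Prime ∧ ¬ p ∣ 2 * m := by
    intro i p hp
    have hp' := Nat.prime_of_mem_primeFactors hp
    refine ⟨hp', fun hh => ?_⟩
    have h5 : p ∣ d := (Nat.dvd_of_mem_primeFactors hp).trans (hDd i)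
    exact hp'.one_lt.ne' (Nat.dvd_one.1 (hcop ▸ Nat.dvd_gcd h5 hh))
  have ha0 : ∀ i, (a i : ℤ) ≠ 0 := fun i => by exact_mod_cast (h4 i).ne'
  refine ⟨κ, ?_, D, ⟨?_, ?_, hprod.le, ?_, ?_⟩, hprod, ?_⟩
  · rw [Fintype.mem_piFinset]
    intro i
    rw [mem_filter, mem_Icc]
    have h5 : κ0 i ≤ (2 * m) ^ 3 := Nat.le_of_dvd (by positivity) (h2 i)
    have h6 := hκabs i
    have h7 : ((κ0 i : ℕ) : ℤ) ≤ ((2 * m : ℕ) : ℤ) ^ 3 := by exact_mod_cast h5
    refine ⟨⟨?_, ?_⟩, hκ0 i⟩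
    · rw [← h6] at h7
      have h8 : -((κ i).natAbs : ℤ) ≤ κ i := by omega
      have h9 : (-((2 * m : ℕ) : ℤ)) ^ 3 = -((2 * m : ℕ) : ℤ) ^ 3 := by ring
      omega
    · rw [← h6] at h7
      omega
  · exact fun i => hsq.squarefree_of_dvd (hDd i)
  · intro i j hij
    rw [Nat.coprime_iff_gcd_eq_one]
    by_contra hne1
    obtain ⟨p, hp, hpd⟩ := Nat.exists_prime_and_dvd hne1
    have h5 : p ∣ D i := hpd.trans (Nat.gcd_dvd_left _ _)
    have h6 : p ∣ D j := hpd.trans (Nat.gcd_dvd_right _ _)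
    have h7 := (hp2m i p (Nat.mem_primeFactors.2 ⟨hp, h5, hD0 i⟩)).2
    have hp2 : p ≠ 2 := by rintro rfl; exact h7 (dvd_mul_right 2 m)
    refine ll_cop hcop' hp hp2 i j hij ?_ ?_
    · rw [Int.natCast_dvd, ← hL]; exact h5.trans (hDL i)
    · rw [Int.natCast_dvd, ← hL]; exact h6.trans (hDL j)
  · intro i p hp
    obtain ⟨hp', hpm⟩ := hp2m i p hp
    have hp2 : p ≠ 2 := by rintro rfl; exact hpm (dvd_mul_right 2 m)
    refine ⟨hp2, fun j hj => ?_, fun j l _ => lam0_not_dvd hp' hp2 j l⟩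
    rw [Int.natCast_dvd, hκabs j] at hj
    exact hpm (hp'.dvd_of_dvd_pow (hj.trans (h2 j)))
  · intro i p hp j l hj hl
    obtain ⟨hp', hpm⟩ := hp2m i p hp
    have := Fact.mk hp'
    have hp2 : p ≠ 2 := by rintro rfl; exact hpm (dvd_mul_right 2 m)
    have hpL : (p : ℤ) ∣ LL x.num x.den i := by
      rw [Int.natCast_dvd, ← hL]
      exact (Nat.dvd_of_mem_primeFactors hp).trans (hDL i)
    obtain ⟨s, hs, hforms⟩ := forms_mod hcop' hp' i hpL
    rw [← hL] at hforms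
    have hand : ∀ j, j ≠ i → ((a j : ℤ) : ZMod p) ≠ 0 := by
      intro j hj h0
      have h5 := hforms j hj
      rw [hLe j] at h5
      push_cast at h5 h0
      rw [h0] at h5
      have h6 : ((lam0 i j : ℤ) : ZMod p) ≠ 0 := fun hh =>
        lam0_not_dvd hp' hp2 i j ((ZMod.intCast_zmod_eq_zero_iff_dvd _ _).1 hh)
      exact mul_ne_zero h6 hs (by rw [← h5]; ring)
    refine ⟨((a l : ℤ) : ZMod p) / ((a j : ℤ) : ZMod p), div_ne_zero (hand l hl) (hand j hj), ?_⟩
    have h5 := hforms j hj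
    have h6 := hforms l hl
    rw [hLe j] at h5
    rw [hLe l] at h6
    have h7 := hand j hj
    push_cast at h5 h6 h7 ⊢
    field_simp
    linear_combination ((lam0 i l : ℤ) : ZMod p) * h5 - ((lam0 i j : ℤ) : ZMod p) * h6
  · intro i
    by_contra hcon
    unfold NC at hcon
    push Not at hcon
    refine nonconst hF hne i fun j l hj hl => ?_
    obtain ⟨t, ht⟩ := hcon j l hj hl
    have haj : (a j : ℚ) ≠ 0 := by exact_mod_cast ha0 j
    have hal : (a l : ℚ) ≠ 0 := by exact_mod_cast ha0 l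
    refine ⟨t * a j / a l, ?_⟩
    rw [← hL, hLe j, hLe l]
    push_cast at ht ⊢
    field_simp
    linear_combination ht

end Pool.Agent.D0H30.QT
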