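import Pool.Agent.D0H30.QT.Stm
import Pool.Agent.Helper653.CubFermat

set_option autoImplicit false

namespace Pool.Agent.D0H30.QT

/-- Fermat's theorem on `x⁴ - y⁴ = z²` over `ℚ` -/
lemma fermat_sub {x y z : ℚ} (h : x ^ 4 - y ^ 4 = z ^ 2) : y = 0 ∨ z = 0 := by
  obtain ⟨D, hD0, X, Y, Z, hX, hY, hZ⟩ : ∃ D : ℚ, D ≠ 0 ∧ ∃ X Y Z : ℤ, x * D = X ∧ y * D = Y ∧
      z * D ^ 2 = Z := by
    refine ⟨(x.den * y.den * z.den : ℕ), by
      have := x.den_nz; have := y.den_nz; have := z.den_nz; positivity,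
      x.num * y.den * z.den, y.num * x.den * z.den, z.num * z.den * x.den ^ 2 * y.den ^ 2, ?_, ?_, ?_⟩
    · push_cast
      linear_combination (y.den * z.den : ℚ) * Rat.mul_den_eq_num x
    · push_cast
      linear_combination (x.den * z.den : ℚ) * Rat.mul_den_eq_num y
    · push_cast
      linear_combination (x.den ^ 2 * y.den ^ 2 * z.den : ℚ) * Rat.mul_den_eq_num z
  have h1 : X ^ 4 - Y ^ 4 = Z ^ 2 := by
    have : (X : ℚ) ^ 4 - Y ^ 4 = Z ^ 2 := by
      rw [← hX, ← hY, ← hZ]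
      linear_combination D ^ 4 * h
    exact_mod_cast this
  rcases cub_fermat_sub X Y Z h1 with h2 | h2
  · left
    rw [h2, Int.cast_zero] at hY
    exact (mul_eq_zero.1 hY).resolve_right hD0
  · right
    rw [h2, Int.cast_zero] at hZ
    exact (mul_eq_zero.1 hZ).resolve_right (pow_ne_zero 2 hD0)

lemma two_fourth {b c : ℚ} (h : b ^ 4 = 2 * c ^ 4) : b = 0 := by
  by_contra hb
  have hc : c ≠ 0 := by
    rintro rfl
    apply hb
    have : b ^ 4 = 0 := by rw [h]; ring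
    exact pow_eq_zero_iff (by norm_num) |>.1 this
  have h2 : (2 : ℚ) = (b ^ 2 / c ^ 2) ^ 2 := by
    field_simp
    linarith
  have h3 : Irrational (Real.sqrt 2) := irrational_sqrt_two
  apply h3
  refine ⟨|b ^ 2 / c ^ 2|, ?_⟩
  have h4 : (((|b ^ 2 / c ^ 2| : ℚ)) : ℝ) ^ 2 = 2 := by
    have : ((2 : ℚ) : ℝ) = (((b ^ 2 / c ^ 2) ^ 2 : ℚ) : ℝ) := by rw [← h2]
    push_cast at this ⊢
    rw [sq_abs]
    exact this.symm
  rw [← h4, Real.sqrt_sq]
  exact_mod_cast abs_nonneg _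

theorem ferm : P_FERM := by
  intro a b c h
  have h1 : (c ^ 2) ^ 4 - (a * b) ^ 4 = ((a ^ 4 - b ^ 4) / 2) ^ 2 := by
    have : c ^ 4 = (a ^ 4 + b ^ 4) / 2 := by linarith
    calc (c ^ 2) ^ 4 - (a * b) ^ 4 = (c ^ 4) ^ 2 - (a * b) ^ 4 := by ring
      _ = ((a ^ 4 - b ^ 4) / 2) ^ 2 := by rw [this]; ring
  rcases fermat_sub h1 with h2 | h2
  · rcases mul_eq_zero.1 h2 with h3 | h3
    · subst h3
      have h4 : b ^ 4 = 2 * c ^ 4 := by linarith
      rw [two_fourth h4]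
    · subst h3
      have h4 : a ^ 4 = 2 * c ^ 4 := by linarith
      rw [two_fourth h4]
  · linarith

end Pool.Agent.D0H30.QT
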