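import Pool.Agent.D0H30.QT.Stm

set_option autoImplicit false

namespace Pool.Agent.D0H30.QT

open Finset Filter Topology

lemma hasPt_neg {d : ℤ} (h : HasPt d) : HasPt (-d) := by
  obtain ⟨x, y, hy, h⟩ := h
  refine ⟨-x, y, hy, ?_⟩
  push_cast
  linear_combination -h

/-- decomposition of a positive integer -/
lemma decomp (n : ℕ) : 0 < n → ∃ a b c d : ℕ, 0 < b ∧ 0 < c ∧ n = 2 ^ a * b ^ 2 * c ^ 3 * d ∧
    Squarefree d ∧ d.Coprime (2 * (2 ^ a * b ^ 2 * c ^ 3)) := by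
  induction n using Nat.recOnPosPrimePosCoprime with
  | zero => intro h; omega
  | one =>
    intro _
    exact ⟨0, 1, 1, 1, one_pos, one_pos, by norm_num, squarefree_one, Nat.coprime_one_left _⟩
  | prime_pow p k hp hk =>
    intro _
    by_cases hp2 : p = 2
    · subst hp2
      exact ⟨k, 1, 1, 1, one_pos, one_pos, by ring, squarefree_one, Nat.coprime_one_left _⟩
    rcases Nat.even_or_odd k with ⟨i, hi⟩ | ⟨i, hi⟩
    · refine ⟨0, p ^ i, 1, 1, pow_pos hp.pos _, one_pos, ?_, squarefree_one, Nat.coprime_one_left _⟩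
      rw [hi]; ring
    · rcases Nat.eq_zero_or_pos i with h0 | h0
      · subst h0
        refine ⟨0, 1, 1, p, one_pos, one_pos, by rw [hi]; ring, hp.squarefree, ?_⟩
        norm_num
        exact hp.odd_of_ne_two hp2
      · obtain ⟨l, rfl⟩ : ∃ l, i = l + 1 := ⟨i - 1, by omega⟩
        refine ⟨0, p ^ l, p, 1, pow_pos hp.pos _, hp.pos, ?_, squarefree_one,
          Nat.coprime_one_left _⟩
        rw [hi]; ring
  | coprime u v hu hv huv ihu ihv =>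
    intro _
    obtain ⟨a, b, c, d, hb, hc, h1, h2, h3⟩ := ihu (by omega)
    obtain ⟨a', b', c', d', hb', hc', h1', h2', h3'⟩ := ihv (by omega)
    have hdu : d ∣ u := ⟨_, by rw [h1, mul_comm]⟩
    have hdv : d' ∣ v := ⟨_, by rw [h1', mul_comm]⟩
    have hmu : 2 ^ a * b ^ 2 * c ^ 3 ∣ u := ⟨_, h1⟩
    have hmv : 2 ^ a' * b' ^ 2 * c' ^ 3 ∣ v := ⟨_, h1'⟩
    have e : 2 * (2 ^ (a + a') * (b * b') ^ 2 * (c * c') ^ 3) =
        2 * (2 ^ a * b ^ 2 * c ^ 3) * (2 ^ a' * b' ^ 2 * c' ^ 3) := by ring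
    refine ⟨a + a', b * b', c * c', d * d', Nat.mul_pos hb hb', Nat.mul_pos hc hc', ?_, ?_, ?_⟩
    · rw [h1, h1']; ring
    · exact (Nat.squarefree_mul (Nat.Coprime.of_dvd hdu hdv huv)).2 ⟨h2, h2'⟩
    · rw [e]
      refine Nat.Coprime.mul_left (Nat.Coprime.mul_right h3 ?_) (Nat.Coprime.mul_right
        (Nat.Coprime.mul_right ?_ ?_) ?_)
      · exact Nat.Coprime.of_dvd hdu hmv huv
      · exact Nat.Coprime.coprime_dvd_right (dvd_mul_right _ _) h3'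
      · exact (Nat.Coprime.of_dvd hmu hdv huv).symm
      · exact Nat.Coprime.coprime_dvd_right (dvd_mul_left _ _) h3'

/-- the squarefree parts of the exceptional numbers with the given powerful part -/
def As (m N : ℕ) : Set ℕ :=
  {d | m * d ≤ N ∧ Squarefree d ∧ d.Coprime (2 * m) ∧ HasPt ((m * d : ℕ) : ℤ)}

lemma As_sub {m : ℕ} (hm : 0 < m) (N : ℕ) : As m N ⊆ (Icc 1 (N / m) : Finset ℕ) := by
  rintro d ⟨h1, h2, -, -⟩
  rw [coe_Icc, Set.mem_Icc]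
  refine ⟨Nat.pos_of_ne_zero h2.ne_zero, ?_⟩
  rw [Nat.le_div_iff_mul_le hm, mul_comm]
  exact h1

lemma As_card {m : ℕ} (hm : 0 < m) (N : ℕ) : ((As m N).ncard : ℝ) ≤ N / m := by
  have h1 := Set.ncard_le_ncard (As_sub hm N) (finite_toSet _)
  rw [Set.ncard_coe_finset, Nat.card_Icc, Nat.add_sub_cancel] at h1
  calc ((As m N).ncard : ℝ) ≤ ((N / m : ℕ) : ℝ) := by exact_mod_cast h1
    _ ≤ N / m := Nat.cast_div_le

lemma adm_mono {κ : Fin 4 → ℤ} {lam : Fin 4 → Fin 4 → ℤ} {N N' : ℕ} {D : Fin 4 → ℕ}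
    (h : Adm κ lam N D) (hN : N ≤ N') : Adm κ lam N' D :=
  ⟨h.sq, h.cop, h.le.trans hN, h.bad, h.cond⟩

lemma adm_fin (κ : Fin 4 → ℤ) (lam : Fin 4 → Fin 4 → ℤ) (N : ℕ) :
    {D : Fin 4 → ℕ | Adm κ lam N D}.Finite := by
  refine (Fintype.piFinset (fun _ : Fin 4 => Icc 1 N)).finite_toSet.subset fun D hD => ?_
  rw [mem_coe, Fintype.mem_piFinset]
  intro i
  have h0 : ∀ i, 1 ≤ D i := fun i => Nat.pos_of_ne_zero (hD.sq i).ne_zero
  rw [mem_Icc]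
  refine ⟨h0 i, le_trans ?_ hD.le⟩
  exact Finset.single_le_prod' (f := D) (fun j _ => h0 j) (mem_univ i)

lemma As_tendsto (hE : P_ENG) (hS : P_SMALL) (hD : P_DESC) {m : ℕ} (hm : 0 < m) :
    Tendsto (fun N : ℕ => ((As m N).ncard : ℝ) / N) atTop (𝓝 0) := by
  obtain ⟨K, hK0, hK⟩ := hD m hm
  rw [Metric.tendsto_atTop]
  intro ε hε
  obtain ⟨δ, hδ, hδε⟩ : ∃ δ : ℝ, 0 < δ ∧ K.card * (2 * δ) < ε := by
    refine ⟨ε / (2 * (K.card + 1)), by positivity, ?_⟩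
    have : (0 : ℝ) < K.card + 1 := by positivity
    rw [show (K.card : ℝ) * (2 * (ε / (2 * (K.card + 1)))) = ε * (K.card / (K.card + 1)) by
      field_simp]
    refine mul_lt_of_lt_one_right hε ?_
    rw [div_lt_one this]
    linarith
  obtain ⟨k0, -, hk0⟩ := hE δ hδ
  have hlam : ∀ j l, j ≠ l → lam0 j l ≠ 0 := by
    intro j l _
    fin_cases j <;> fin_cases l <;> simp [lam0]
  have hex : ∀ κ : Fin 4 → ℤ, ∃ N0 : ℕ, κ ∈ K → ∀ N, N0 ≤ N →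
      ({D : Fin 4 → ℕ | Adm κ lam0 N D ∧ ¬ Big k0 D ∧ ∀ i, NC κ lam0 D i}.ncard : ℝ) ≤ δ * N := by
    intro κ
    by_cases hκ : κ ∈ K
    · obtain ⟨N0, h⟩ := hS κ lam0 (hK0 κ hκ) hlam k0 δ hδ
      exact ⟨N0, fun _ => h⟩
    · exact ⟨0, fun h => absurd h hκ⟩
  choose N0 hN0 using hex
  refine ⟨K.sup N0 + 1, fun N hN => ?_⟩
  have hN1 : (0 : ℝ) < N := by
    have : 1 ≤ N := le_trans (Nat.le_add_left 1 _) hN
    exact_mod_cast this
  rw [Real.dist_eq, sub_zero, abs_of_nonneg (by positivity), div_lt_iff₀ hN1]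
  have hsub : As m N ⊆ ⋃ κ ∈ K, (fun D : Fin 4 → ℕ => ∏ i, D i) ''
      ({D : Fin 4 → ℕ | Adm κ lam0 N D ∧ Big k0 D} ∪
        {D : Fin 4 → ℕ | Adm κ lam0 N D ∧ ¬ Big k0 D ∧ ∀ i, NC κ lam0 D i}) := by
    rintro d ⟨h1, h2, h3, h4⟩
    obtain ⟨κ, hκ, D, hA, hP, hNC⟩ := hK d h2 h3 h4
    have hdN : d ≤ N := le_trans (Nat.le_mul_of_pos_left d hm) h1
    have hA' := adm_mono hA hdN
    rw [Set.mem_iUnion₂]
    refine ⟨κ, hκ, D, ?_, hP⟩
    by_cases hB : Big k0 D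
    · exact Or.inl ⟨hA', hB⟩
    · exact Or.inr ⟨hA', hB, hNC⟩
  have hfin : ∀ κ ∈ K, ({D : Fin 4 → ℕ | Adm κ lam0 N D ∧ Big k0 D} ∪
        {D : Fin 4 → ℕ | Adm κ lam0 N D ∧ ¬ Big k0 D ∧ ∀ i, NC κ lam0 D i}).Finite :=
    fun κ _ => (adm_fin κ lam0 N).subset (by
      rintro D (h | h)
      · exact h.1
      · exact h.1)
  have hcard : ((As m N).ncard : ℝ) ≤ ∑ κ ∈ K, (2 * δ * N) := by
    have h1 := Set.ncard_le_ncard hsub (Set.Finite.biUnion K.finite_toSet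
      fun κ hκ => (hfin κ hκ).image _)
    have h2 : (⋃ κ ∈ K, (fun D : Fin 4 → ℕ => ∏ i, D i) ''
      ({D : Fin 4 → ℕ | Adm κ lam0 N D ∧ Big k0 D} ∪
        {D : Fin 4 → ℕ | Adm κ lam0 N D ∧ ¬ Big k0 D ∧ ∀ i, NC κ lam0 D i})).ncard ≤
        ∑ κ ∈ K, ((fun D : Fin 4 → ℕ => ∏ i, D i) ''
      ({D : Fin 4 → ℕ | Adm κ lam0 N D ∧ Big k0 D} ∪
        {D : Fin 4 → ℕ | Adm κ lam0 N D ∧ ¬ Big k0 D ∧ ∀ i, NC κ lam0 D i})).ncard :=
      Finset.set_ncard_biUnion_le K _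
    have h3 : ((As m N).ncard : ℝ) ≤ ∑ κ ∈ K, (((fun D : Fin 4 → ℕ => ∏ i, D i) ''
      ({D : Fin 4 → ℕ | Adm κ lam0 N D ∧ Big k0 D} ∪
        {D : Fin 4 → ℕ | Adm κ lam0 N D ∧ ¬ Big k0 D ∧ ∀ i, NC κ lam0 D i})).ncard : ℝ) := by
      exact_mod_cast h1.trans h2
    refine h3.trans (sum_le_sum fun κ hκ => ?_)
    have h4 := Set.ncard_image_le (f := fun D : Fin 4 → ℕ => ∏ i, D i) (hfin κ hκ)
    have h5 := Set.ncard_union_le {D : Fin 4 → ℕ | Adm κ lam0 N D ∧ Big k0 D}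
      {D : Fin 4 → ℕ | Adm κ lam0 N D ∧ ¬ Big k0 D ∧ ∀ i, NC κ lam0 D i}
    have h6 := (hk0 κ lam0 N).2
    have h7 := hN0 κ hκ N (le_trans ((Finset.le_sup hκ).trans (Nat.le_add_right _ 1)) hN)
    have h8 : (((fun D : Fin 4 → ℕ => ∏ i, D i) ''
      ({D : Fin 4 → ℕ | Adm κ lam0 N D ∧ Big k0 D} ∪
        {D : Fin 4 → ℕ | Adm κ lam0 N D ∧ ¬ Big k0 D ∧ ∀ i, NC κ lam0 D i})).ncard : ℝ) ≤
        ({D : Fin 4 → ℕ | Adm κ lam0 N D ∧ Big k0 D}.ncard : ℝ) +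
        ({D : Fin 4 → ℕ | Adm κ lam0 N D ∧ ¬ Big k0 D ∧ ∀ i, NC κ lam0 D i}.ncard : ℝ) := by
      exact_mod_cast h4.trans h5
    linarith
  rw [sum_const, nsmul_eq_mul] at hcard
  calc ((As m N).ncard : ℝ) ≤ K.card * (2 * δ * N) := hcard
    _ = K.card * (2 * δ) * N := by ring
    _ < ε * N := by gcongr

/-- the powerful parts -/
def mt (t : ℕ × ℕ × ℕ) : ℕ := 2 ^ t.1 * (t.2.1 + 1) ^ 2 * (t.2.2 + 1) ^ 3

lemma mt_pos (t : ℕ × ℕ × ℕ) : 0 < mt t := by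
  unfold mt
  positivity

lemma mt_summable : Summable (fun t : ℕ × ℕ × ℕ => (1 : ℝ) / mt t) := by
  have h1 : Summable (fun a : ℕ => (1 / 2 : ℝ) ^ a) := summable_geometric_two
  have h2 : Summable (fun b : ℕ => (1 : ℝ) / ((b : ℝ) + 1) ^ 2) := by
    have := (summable_nat_add_iff 1).2 (Real.summable_one_div_nat_pow.2 (by norm_num : 1 < 2))
    exact_mod_cast this
  have h3 : Summable (fun c : ℕ => (1 : ℝ) / ((c : ℝ) + 1) ^ 3) := by
    have := (summable_nat_add_iff 1).2 (Real.summable_one_div_nat_pow.2 (by norm_num : 1 < 3))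
    exact_mod_cast this
  have h4 := h2.mul_of_nonneg h3 (fun b => by positivity) (fun c => by positivity)
  have h5 := h1.mul_of_nonneg h4 (fun b => by positivity) (fun c => by positivity)
  refine h5.congr fun t => ?_
  unfold mt
  push_cast
  rw [one_div_pow]
  field_simp

lemma total (N : ℕ) : {n : ℕ | 0 < n ∧ n ≤ N ∧ HasPt (n : ℤ)} ⊆
    ⋃ t ∈ (range (N + 1) ×ˢ (range (N + 1) ×ˢ range (N + 1)) : Finset (ℕ × ℕ × ℕ)),
      (fun d => mt t * d) '' As (mt t) N := by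
  rintro n ⟨h0, hN, hP⟩
  obtain ⟨a, b, c, d, hb, hc, h1, h2, h3⟩ := decomp n h0
  have hbc : mt (a, b - 1, c - 1) = 2 ^ a * b ^ 2 * c ^ 3 := by
    unfold mt
    simp only
    rw [Nat.sub_add_cancel hb, Nat.sub_add_cancel hc]
  have hd : 0 < d := Nat.pos_of_ne_zero h2.ne_zero
  have hle : 2 ^ a * b ^ 2 * c ^ 3 ≤ N := by
    refine le_trans ?_ hN
    rw [h1]
    exact Nat.le_mul_of_pos_right _ hd
  rw [Set.mem_iUnion₂]
  refine ⟨(a, b - 1, c - 1), ?_, d, ?_, ?_⟩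
  · rw [mem_product, mem_product, mem_range, mem_range, mem_range]
    have ha : a ≤ N := by
      have h4 : a < 2 ^ a := Nat.lt_two_pow_self
      have h5 : 2 ^ a ≤ 2 ^ a * b ^ 2 * c ^ 3 := by
        rw [mul_assoc]
        exact Nat.le_mul_of_pos_right _ (by positivity)
      omega
    have hb' : b ≤ N := by
      have h5 : b ≤ b ^ 2 := Nat.le_self_pow two_ne_zero b
      have h6 : b ^ 2 ≤ 2 ^ a * b ^ 2 * c ^ 3 := by
        rw [mul_comm (2 ^ a), mul_assoc]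
        exact Nat.le_mul_of_pos_right _ (by positivity)
      omega
    have hc' : c ≤ N := by
      have h5 : c ≤ c ^ 3 := Nat.le_self_pow three_ne_zero c
      have h6 : c ^ 3 ≤ 2 ^ a * b ^ 2 * c ^ 3 := Nat.le_mul_of_pos_left _ (by positivity)
      omega
    simp only
    omega
  · rw [hbc]
    refine ⟨?_, h2, h3, ?_⟩
    · rw [← h1]; exact hN
    · rw [← h1]; exact hP
  · simp only
    rw [hbc, h1]

lemma pos_count (N : ℕ) : ({n : ℕ | 0 < n ∧ n ≤ N ∧ HasPt (n : ℤ)}.ncard : ℝ) ≤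
    ∑ t ∈ (range (N + 1) ×ˢ (range (N + 1) ×ˢ range (N + 1)) : Finset (ℕ × ℕ × ℕ)),
      ((As (mt t) N).ncard : ℝ) := by
  have hf : ∀ t, (As (mt t) N).Finite := fun t => (finite_toSet _).subset (As_sub (mt_pos t) N)
  have h1 := Set.ncard_le_ncard (total N) (Set.Finite.biUnion (finite_toSet _)
    fun t _ => (hf t).image _)
  have h2 := h1.trans (Finset.set_ncard_biUnion_le _ _)
  have h3 : ({n : ℕ | 0 < n ∧ n ≤ N ∧ HasPt (n : ℤ)}.ncard : ℝ) ≤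
    ∑ t ∈ (range (N + 1) ×ˢ (range (N + 1) ×ˢ range (N + 1)) : Finset (ℕ × ℕ × ℕ)),
      (((fun d => mt t * d) '' As (mt t) N).ncard : ℝ) := by exact_mod_cast h2
  refine h3.trans (sum_le_sum fun t _ => ?_)
  exact_mod_cast Set.ncard_image_le (hf t)

lemma int_count (N : ℕ) : ({d : ℤ | d ≠ 0 ∧ d.natAbs ≤ N ∧ HasPt d}.ncard : ℝ) ≤
    2 * ({n : ℕ | 0 < n ∧ n ≤ N ∧ HasPt (n : ℤ)}.ncard : ℝ) := by
  have hfin : {n : ℕ | 0 < n ∧ n ≤ N ∧ HasPt (n : ℤ)}.Finite :=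
    (finite_toSet (Icc 1 N)).subset fun n hn => by
      rw [coe_Icc, Set.mem_Icc]; exact ⟨hn.1, hn.2.1⟩
  have hsub : {d : ℤ | d ≠ 0 ∧ d.natAbs ≤ N ∧ HasPt d} ⊆
      ((fun n : ℕ => (n : ℤ)) '' {n : ℕ | 0 < n ∧ n ≤ N ∧ HasPt (n : ℤ)}) ∪
      ((fun n : ℕ => -(n : ℤ)) '' {n : ℕ | 0 < n ∧ n ≤ N ∧ HasPt (n : ℤ)}) := by
    rintro d ⟨h0, h1, h2⟩
    rcases Int.natAbs_eq d with h | h
    · left
      refine ⟨d.natAbs, ⟨Int.natAbs_pos.2 h0, h1, ?_⟩, h.symm⟩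
      rw [← h]; exact h2
    · right
      refine ⟨d.natAbs, ⟨Int.natAbs_pos.2 h0, h1, ?_⟩, h.symm⟩
      rw [show ((d.natAbs : ℕ) : ℤ) = -d by omega]
      exact hasPt_neg h2
  have h1 := Set.ncard_le_ncard hsub ((hfin.image _).union (hfin.image _))
  have h2 := h1.trans (Set.ncard_union_le _ _)
  have h3 := Set.ncard_image_le (f := fun n : ℕ => (n : ℤ)) hfin
  have h4 := Set.ncard_image_le (f := fun n : ℕ => -(n : ℤ)) hfin
  have h5 : {d : ℤ | d ≠ 0 ∧ d.natAbs ≤ N ∧ HasPt d}.ncard ≤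
    2 * {n : ℕ | 0 < n ∧ n ≤ N ∧ HasPt (n : ℤ)}.ncard := by omega
  exact_mod_cast h5

theorem fin : P_FIN := by
  intro hE hS hD
  have key : Tendsto (fun N : ℕ => ∑' t : ℕ × ℕ × ℕ, ((As (mt t) N).ncard : ℝ) / N) atTop
      (𝓝 (∑' _ : ℕ × ℕ × ℕ, (0 : ℝ))) := by
    refine tendsto_tsum_of_dominated_convergence mt_summable
      (fun t => As_tendsto hE hS hD (mt_pos t)) (Eventually.of_forall fun N t => ?_)
    rw [Real.norm_of_nonneg (by positivity)]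
    rcases Nat.eq_zero_or_pos N with h0 | h0
    · subst h0
      rw [Nat.cast_zero, div_zero]
      positivity
    · have hN : (0 : ℝ) < N := by exact_mod_cast h0
      rw [div_le_iff₀ hN]
      have := As_card (mt_pos t) N
      calc ((As (mt t) N).ncard : ℝ) ≤ N / mt t := this
        _ = 1 / mt t * N := by ring
  rw [tsum_zero] at key
  have key2 : Tendsto (fun N : ℕ => 2 * ∑' t : ℕ × ℕ × ℕ, ((As (mt t) N).ncard : ℝ) / N) atTop
      (𝓝 0) := by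
    have := key.const_mul 2
    rwa [mul_zero] at this
  refine squeeze_zero (fun N => by positivity) (fun N => ?_) key2
  rcases Nat.eq_zero_or_pos N with h0 | h0
  · subst h0
    rw [Nat.cast_zero, div_zero]
    exact mul_nonneg zero_le_two (tsum_nonneg fun t => by positivity)
  have hN : (0 : ℝ) < N := by exact_mod_cast h0
  have hsum : Summable fun t : ℕ × ℕ × ℕ => ((As (mt t) N).ncard : ℝ) / N := by
    refine Summable.of_nonneg_of_le (fun t => by positivity) (fun t => ?_) mt_summable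
    rw [div_le_iff₀ hN]
    have := As_card (mt_pos t) N
    calc ((As (mt t) N).ncard : ℝ) ≤ N / mt t := this
      _ = 1 / mt t * N := by ring
  have h1 := (int_count N).trans (mul_le_mul_of_nonneg_left (pos_count N) zero_le_two)
  have h2 := hsum.sum_le_tsum (range (N + 1) ×ˢ (range (N + 1) ×ˢ range (N + 1)))
    (fun t _ => by positivity)
  rw [← sum_div] at h2
  calc ({d : ℤ | d ≠ 0 ∧ d.natAbs ≤ N ∧ HasPt d}.ncard : ℝ) / N
      ≤ (2 * ∑ t ∈ (range (N + 1) ×ˢ (range (N + 1) ×ˢ range (N + 1)) : Finset (ℕ × ℕ × ℕ)),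
        ((As (mt t) N).ncard : ℝ)) / N := by gcongr
    _ = 2 * ((∑ t ∈ (range (N + 1) ×ˢ (range (N + 1) ×ˢ range (N + 1)) : Finset (ℕ × ℕ × ℕ)),
        ((As (mt t) N).ncard : ℝ)) / N) := by ring
    _ ≤ _ := by gcongr

end Pool.Agent.D0H30.QT
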