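import Pool.Agent.D0H30.QT.Stm
import Pool.Agent.Helper919.NonRes
import Pool.Agent.Y405.CQ.MER

set_option autoImplicit false

namespace Pool.Agent.D0H30.QT

open Finset Filter Topology

lemma jac_prime {e : ℤ} {d p : ℕ} (hd : Odd d) (h : jacobiSym e d = -1) (_ : p.Prime)
    (hpm : p % (4 * e.natAbs) = d % (4 * e.natAbs)) : ¬ IsSquare (e : ZMod p) := by
  have hpo : Odd p := by
    rw [Nat.odd_iff] at hd ⊢
    have h1 : p % (4 * e.natAbs) % 2 = p % 2 := Nat.mod_mod_of_dvd _ ⟨2 * e.natAbs, by ring⟩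
    have h2 : d % (4 * e.natAbs) % 2 = d % 2 := Nat.mod_mod_of_dvd _ ⟨2 * e.natAbs, by ring⟩
    omega
  have h1 : jacobiSym e p = -1 := by
    rw [jacobiSym.mod_right e hpo, hpm, ← jacobiSym.mod_right e hd, h]
  exact ZMod.nonsquare_of_jacobiSym_eq_neg_one h1

lemma jac_cop {e : ℤ} {d : ℕ} (hd : Odd d) (h : jacobiSym e d = -1) :
    (d % (4 * e.natAbs)).Coprime (4 * e.natAbs) := by
  have h1 : e.gcd d = 1 := by
    by_contra hne
    have h2 : jacobiSym e d = 0 := by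
      have : NeZero d := ⟨by rintro rfl; exact absurd hd (by decide)⟩
      exact jacobiSym.eq_zero_iff_not_coprime.2 hne
    rw [h2] at h
    norm_num at h
  have h2 : Nat.Coprime d (4 * e.natAbs) := by
    refine Nat.Coprime.mul_right ?_ ?_
    · have : Nat.Coprime d (2 ^ 2) := (Nat.Coprime.pow_right 2 (Nat.coprime_two_right.2 hd))
      exact this
    · rw [Nat.coprime_iff_gcd_eq_one, Nat.gcd_comm]
      exact h1
  unfold Nat.Coprime at h2 ⊢
  rw [← h2, Nat.gcd_comm d, Nat.gcd_rec (4 * e.natAbs) d]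

/-- a class of primes modulo which `e` is no square, `e`, `-e` no squares, in `1 mod 4` -/
lemma class_one {e : ℤ} (h1 : ¬ IsSquare e) (h2 : ¬ IsSquare (-e)) :
    ∃ d : ℕ, Odd d ∧ jacobiSym e d = -1 ∧ d % 4 = 1 := by
  obtain ⟨d1, ho1, hj1⟩ := Pool.Agent.Helper919.exists_jacobi_neg_one e h1
  by_cases h4 : d1 % 4 = 1
  · exact ⟨d1, ho1, hj1, h4⟩
  have h43 : d1 % 4 = 3 := by
    rw [Nat.odd_iff] at ho1
    omega
  obtain ⟨d2, ho2, hj2⟩ := Pool.Agent.Helper919.exists_jacobi_neg_one (-e) h2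
  rw [jacobiSym.neg _ ho2] at hj2
  by_cases h5 : d2 % 4 = 1
  · rw [ZMod.χ₄_nat_one_mod_four h5, one_mul] at hj2
    exact ⟨d2, ho2, hj2, h5⟩
  have h53 : d2 % 4 = 3 := by
    rw [Nat.odd_iff] at ho2
    omega
  rw [ZMod.χ₄_nat_three_mod_four h53] at hj2
  have hj3 : jacobiSym e d2 = 1 := by linarith
  refine ⟨d1 * d2, ho1.mul ho2, ?_, ?_⟩
  · have : NeZero d1 := ⟨by omega⟩
    have : NeZero d2 := ⟨by omega⟩
    rw [jacobiSym.mul_right, hj1, hj3]
    norm_num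
  · rw [Nat.mul_mod, h43, h53]

/-- a rational integer which is no fourth power is no fourth power modulo the primes of some
class -/
lemma class_four {c : ℤ} (hc : c ≠ 0) (h : ¬ ∃ t : ℤ, c = t ^ 4) :
    ∃ M r : ℕ, 0 < M ∧ r < M ∧ r.Coprime M ∧ ∀ p : ℕ, p.Prime → p % M = r →
      ¬ ∃ v : ZMod p, (c : ZMod p) = v ^ 4 := by
  by_cases hsq : IsSquare c
  · obtain ⟨e, he⟩ := hsq
    have he0 : e ≠ 0 := by rintro rfl; exact hc (by rw [he]; ring)
    have h1 : ¬ IsSquare e := by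
      rintro ⟨s, hs⟩
      exact h ⟨s, by rw [he, hs]; ring⟩
    have h2 : ¬ IsSquare (-e) := by
      rintro ⟨s, hs⟩
      exact h ⟨s, by rw [he]; linear_combination (-e + s * s) * hs⟩
    obtain ⟨d, ho, hj, h4⟩ := class_one h1 h2
    have hM : 0 < 4 * e.natAbs := by
      have := Int.natAbs_pos.2 he0
      omega
    refine ⟨4 * e.natAbs, d % (4 * e.natAbs), hM, Nat.mod_lt _ hM, jac_cop ho hj,
      fun p hp hpm => ?_⟩
    rintro ⟨v, hv⟩
    have := Fact.mk hp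
    have hns := jac_prime ho hj hp hpm
    have hp4 : p % 4 = 1 := by
      have e1 : p % (4 * e.natAbs) % 4 = p % 4 := Nat.mod_mod_of_dvd _ ⟨e.natAbs, rfl⟩
      have e2 : d % (4 * e.natAbs) % 4 = d % 4 := Nat.mod_mod_of_dvd _ ⟨e.natAbs, rfl⟩
      omega
    rw [he] at hv
    push_cast at hv
    have h5 : ((e : ZMod p) - v ^ 2) * ((e : ZMod p) + v ^ 2) = 0 := by linear_combination hv
    rcases mul_eq_zero.1 h5 with h6 | h6
    · exact hns ⟨v, by linear_combination h6⟩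
    · obtain ⟨i, hi⟩ := (ZMod.exists_sq_eq_neg_one_iff (p := p)).2 (by omega)
      exact hns ⟨i * v, by linear_combination h6 + v ^ 2 * hi⟩
  · obtain ⟨d, ho, hj⟩ := Pool.Agent.Helper919.exists_jacobi_neg_one c hsq
    have hM : 0 < 4 * c.natAbs := by
      have := Int.natAbs_pos.2 hc
      omega
    refine ⟨4 * c.natAbs, d % (4 * c.natAbs), hM, Nat.mod_lt _ hM, jac_cop ho hj,
      fun p hp hpm => ?_⟩
    rintro ⟨v, hv⟩
    exact jac_prime ho hj hp hpm ⟨v ^ 2, by rw [hv]; ring⟩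

/-- the numbers without prime factors in a class have density zero -/
lemma dens {M r : ℕ} (hM : 0 < M) (hr : r < M) (hc : r.Coprime M) (ε : ℝ) (hε : 0 < ε) :
    ∃ N0 : ℕ, ∀ N, N0 ≤ N →
      (((Icc 1 N).filter (fun n => ∀ p ∈ n.primeFactors, p % M ≠ r)).card : ℝ) ≤ ε * N := by
  obtain ⟨C, hC, hmert⟩ := Pool.Agent.Y405.CQ.mertens_ap M hM r hr hc
  have hφ : (0 : ℝ) < Nat.totient M := by exact_mod_cast Nat.totient_pos.2 hM
  have hll : Tendsto (fun x : ℕ => Real.log (Real.log x)) atTop atTop :=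
    Real.tendsto_log_atTop.comp (Real.tendsto_log_atTop.comp tendsto_natCast_atTop_atTop)
  obtain ⟨x, hx3, hx⟩ : ∃ x : ℕ, 3 ≤ x ∧
      Real.log (2 / ε) ≤ 1 / (Nat.totient M : ℝ) * Real.log (Real.log x) - C := by
    obtain ⟨x, hx⟩ := ((hll.eventually_ge_atTop ((Real.log (2 / ε) + C) * Nat.totient M)).and
      (eventually_ge_atTop 3)).exists
    refine ⟨x, hx.2, ?_⟩
    have := hx.1
    rw [← le_div_iff₀ hφ] at this
    have e : 1 / (Nat.totient M : ℝ) * Real.log (Real.log x) =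
        Real.log (Real.log x) / Nat.totient M := by ring
    rw [e]
    linarith
  obtain ⟨P, hP⟩ : ∃ P : Finset ℕ, P = (Icc 1 x).filter (fun p => p.Prime ∧ p % M = r) := ⟨_, rfl⟩
  have hPp : ∀ p ∈ P, p.Prime := fun p hp => by rw [hP] at hp; exact (mem_filter.1 hp).2.1
  have hPr : ∀ p ∈ P, p % M = r := fun p hp => by rw [hP] at hp; exact (mem_filter.1 hp).2.2
  have hsum : Real.log (2 / ε) ≤ ∑ p ∈ P, (1 : ℝ) / p := by
    have := (abs_le.1 (hmert x hx3)).1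
    rw [hP]
    linarith
  obtain ⟨Q, hQ⟩ : ∃ Q : ℕ, Q = ∏ p ∈ P, p := ⟨_, rfl⟩
  have hQ0 : Q ≠ 0 := by rw [hQ]; exact prod_ne_zero_iff.2 fun p hp => (hPp p hp).ne_zero
  have hQpos : (0 : ℝ) < Q := by exact_mod_cast Nat.pos_of_ne_zero hQ0
  have hQf : Q.primeFactors = P := by
    rw [hQ]; exact Nat.primeFactors_prod hPp
  have htot : (Nat.totient Q : ℝ) ≤ ε / 2 * Q := by
    have h1 : (Nat.totient Q : ℚ) = Q * ∏ p ∈ Q.primeFactors, (1 - (p : ℚ)⁻¹) :=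
      Nat.totient_eq_mul_prod_factors Q
    have h2 : (Nat.totient Q : ℝ) = Q * ∏ p ∈ Q.primeFactors, (1 - (p : ℝ)⁻¹) := by
      have := congrArg (fun q : ℚ => (q : ℝ)) h1
      push_cast at this
      exact this
    rw [h2, hQf, mul_comm (ε / 2)]
    refine mul_le_mul_of_nonneg_left ?_ hQpos.le
    calc ∏ p ∈ P, (1 - (p : ℝ)⁻¹) ≤ ∏ p ∈ P, Real.exp (-((1 : ℝ) / p)) := by
          refine prod_le_prod (fun p hp => ?_) (fun p _ => ?_)
          · have : (1 : ℝ) ≤ p := by exact_mod_cast (hPp p hp).one_lt.le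
            have := inv_le_one_of_one_le₀ this
            linarith
          · have := Real.add_one_le_exp (-((1 : ℝ) / p))
            rw [one_div] at this ⊢
            linarith
      _ = Real.exp (-∑ p ∈ P, (1 : ℝ) / p) := by
          rw [← Real.exp_sum, sum_neg_distrib]
      _ ≤ Real.exp (-Real.log (2 / ε)) := Real.exp_le_exp.2 (neg_le_neg hsum)
      _ = ε / 2 := by
          rw [Real.exp_neg, Real.exp_log (by positivity), inv_div]
  refine ⟨⌈2 * (Nat.totient Q : ℝ) / ε⌉₊, fun N hN => ?_⟩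
  have hNr : 2 * (Nat.totient Q : ℝ) / ε ≤ N := Nat.ceil_le.1 hN
  rw [div_le_iff₀ hε] at hNr
  have hsub : (Icc 1 N).filter (fun n => ∀ p ∈ n.primeFactors, p % M ≠ r) ⊆
      (Ico 1 (1 + N)).filter (fun n => Q.Coprime n) := by
    intro n hn
    rw [mem_filter, mem_Icc] at hn
    rw [mem_filter, mem_Ico]
    refine ⟨⟨hn.1.1, by omega⟩, ?_⟩
    rw [Nat.coprime_iff_gcd_eq_one]
    by_contra hne
    obtain ⟨p, hp, hpd⟩ := Nat.exists_prime_and_dvd hne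
    have h1 : p ∈ P := by
      rw [← hQf, Nat.mem_primeFactors]
      exact ⟨hp, hpd.trans (Nat.gcd_dvd_left _ _), hQ0⟩
    exact hn.2 p (Nat.mem_primeFactors.2 ⟨hp, hpd.trans (Nat.gcd_dvd_right _ _), by omega⟩)
      (hPr p h1)
  have h1 := (card_le_card hsub).trans (Nat.Ico_filter_coprime_le 1 N hQ0)
  have h2 : (((Icc 1 N).filter (fun n => ∀ p ∈ n.primeFactors, p % M ≠ r)).card : ℝ) ≤
      Nat.totient Q * ((N / Q : ℕ) + 1) := by exact_mod_cast h1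
  have h3 : ((N / Q : ℕ) : ℝ) ≤ N / Q := Nat.cast_div_le
  have h4 : (0 : ℝ) ≤ Nat.totient Q := by positivity
  calc (((Icc 1 N).filter (fun n => ∀ p ∈ n.primeFactors, p % M ≠ r)).card : ℝ)
      ≤ Nat.totient Q * ((N / Q : ℕ) + 1) := h2
    _ ≤ Nat.totient Q * (N / Q + 1) := by gcongr
    _ = Nat.totient Q * (N / Q) + Nat.totient Q := by ring
    _ ≤ (ε / 2 * Q) * (N / Q) + ε / 2 * N := by
        refine add_le_add (mul_le_mul_of_nonneg_right htot (by positivity)) (by linarith)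
    _ = ε * N := by field_simp; ring

/-- few numbers have only prime factors modulo which `a` and `b` are in the same class -/
lemma zcount {a b : ℤ} (ha : a ≠ 0) (hb : b ≠ 0) (h : ¬ ∃ t : ℚ, (a : ℚ) = t ^ 4 * (b : ℚ))
    (ε : ℝ) (hε : 0 < ε) : ∃ N0 : ℕ, ∀ N, N0 ≤ N →
      ({n : ℕ | 1 ≤ n ∧ n ≤ N ∧ ∀ p ∈ n.primeFactors, Q4 p a b}.ncard : ℝ) ≤ ε * N := by
  have hc : ¬ ∃ t : ℤ, a * b ^ 3 = t ^ 4 := by
    rintro ⟨t, ht⟩
    apply h
    have hb' : (b : ℚ) ≠ 0 := by exact_mod_cast hb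
    refine ⟨t / b, ?_⟩
    have ht' : (a : ℚ) * b ^ 3 = t ^ 4 := by exact_mod_cast ht
    field_simp
    linear_combination ht'
  obtain ⟨M, r, hM, hr, hcop, hcl⟩ := class_four (mul_ne_zero ha (pow_ne_zero 3 hb)) hc
  obtain ⟨N0, hN0⟩ := dens hM hr hcop ε hε
  refine ⟨N0, fun N hN => le_trans ?_ (hN0 N hN)⟩
  have hsub : {n : ℕ | 1 ≤ n ∧ n ≤ N ∧ ∀ p ∈ n.primeFactors, Q4 p a b} ⊆
      ((Icc 1 N).filter (fun n => ∀ p ∈ n.primeFactors, p % M ≠ r) : Finset ℕ) := by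
    rintro n ⟨h1, h2, h3⟩
    rw [mem_coe, mem_filter, mem_Icc]
    refine ⟨⟨h1, h2⟩, fun p hp hpm => ?_⟩
    obtain ⟨u, -, hu⟩ := h3 p hp
    refine hcl p (Nat.prime_of_mem_primeFactors hp) hpm ⟨u * b, ?_⟩
    push_cast
    rw [hu]
    ring
  have := Set.ncard_le_ncard hsub (finite_toSet _)
  rw [Set.ncard_coe_finset] at this
  exact_mod_cast this

/-- the bad data -/
def BadE (κ : Fin 4 → ℤ) (lam : Fin 4 → Fin 4 → ℤ) (x : Fin 4 × (Fin 4 → ℕ)) : Prop :=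
  ∃ j l, j ≠ x.1 ∧ l ≠ x.1 ∧ ¬ ∃ t : ℚ,
    ((κ j * x.2 j * lam x.1 l : ℤ) : ℚ) = t ^ 4 * ((κ l * x.2 l * lam x.1 j : ℤ) : ℚ)

/-- the admissible tuples with given components other than `i` -/
def Fib (κ : Fin 4 → ℤ) (lam : Fin 4 → Fin 4 → ℤ) (N : ℕ) (x : Fin 4 × (Fin 4 → ℕ)) :
    Set (Fin 4 → ℕ) :=
  {D | Adm κ lam N D ∧ D = Function.update x.2 x.1 (D x.1)}

lemma fib_count {κ : Fin 4 → ℤ} {lam : Fin 4 → Fin 4 → ℤ} (hκ : ∀ j, κ j ≠ 0)
    (hlam : ∀ j l, j ≠ l → lam j l ≠ 0) {x : Fin 4 × (Fin 4 → ℕ)} (hx0 : ∀ j, x.2 j ≠ 0)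
    (hx : BadE κ lam x) (ε : ℝ) (hε : 0 < ε) : ∃ N0 : ℕ, ∀ N, N0 ≤ N →
      ((Fib κ lam N x).ncard : ℝ) ≤ ε * N := by
  obtain ⟨j, l, hj, hl, hne⟩ := hx
  have ha : κ j * x.2 j * lam x.1 l ≠ 0 := mul_ne_zero (mul_ne_zero (hκ j)
    (by exact_mod_cast hx0 j)) (hlam _ _ hl.symm)
  have hb : κ l * x.2 l * lam x.1 j ≠ 0 := mul_ne_zero (mul_ne_zero (hκ l)
    (by exact_mod_cast hx0 l)) (hlam _ _ hj.symm)
  obtain ⟨N0, hN0⟩ := zcount ha hb hne ε hε
  refine ⟨N0, fun N hN => le_trans ?_ (hN0 N hN)⟩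
  have hfin : {n : ℕ | 1 ≤ n ∧ n ≤ N ∧ ∀ p ∈ n.primeFactors,
      Q4 p (κ j * x.2 j * lam x.1 l) (κ l * x.2 l * lam x.1 j)}.Finite :=
    (finite_toSet (Icc 1 N)).subset fun n hn => by
      rw [mem_coe, mem_Icc]; exact ⟨hn.1, hn.2.1⟩
  have hsub : Fib κ lam N x ⊆ (fun n => Function.update x.2 x.1 n) ''
      {n : ℕ | 1 ≤ n ∧ n ≤ N ∧ ∀ p ∈ n.primeFactors,
        Q4 p (κ j * x.2 j * lam x.1 l) (κ l * x.2 l * lam x.1 j)} := by
    rintro D ⟨hA, hD⟩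
    have h0 : ∀ i, 1 ≤ D i := fun i => Nat.pos_of_ne_zero (hA.sq i).ne_zero
    refine ⟨D x.1, ⟨h0 _, le_trans ?_ hA.le, fun p hp => ?_⟩, hD.symm⟩
    · exact Finset.single_le_prod' (f := D) (fun j _ => h0 j) (mem_univ x.1)
    · have h1 := hA.cond x.1 p hp j l hj hl
      have h2 : D j = x.2 j := by rw [hD, Function.update_of_ne hj]
      have h3 : D l = x.2 l := by rw [hD, Function.update_of_ne hl]
      rwa [h2, h3] at h1
  have h1 := (Set.ncard_le_ncard hsub (hfin.image _)).trans (Set.ncard_image_le hfin)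
  exact_mod_cast h1

theorem small : P_SMALL := by
  intro κ lam hκ hlam k0 ε hε
  obtain ⟨P0, hP0⟩ : ∃ P0 : ℕ, P0 = ∏ p ∈ (range (2 ^ k0)).filter Nat.Prime, p := ⟨_, rfl⟩
  have hP0ne : P0 ≠ 0 := by
    rw [hP0]
    exact prod_ne_zero_iff.2 fun p hp => (mem_filter.1 hp).2.ne_zero
  obtain ⟨I, hI⟩ : ∃ I : Finset (Fin 4 × (Fin 4 → ℕ)),
      I = univ ×ˢ Fintype.piFinset (fun _ : Fin 4 => P0.divisors) := ⟨_, rfl⟩
  have hI0 : ∀ x ∈ I, ∀ j, x.2 j ≠ 0 := by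
    intro x hx j
    rw [hI, mem_product, Fintype.mem_piFinset] at hx
    exact (Nat.pos_of_mem_divisors (hx.2 j)).ne'
  obtain ⟨δ, hδ, hδε⟩ : ∃ δ : ℝ, 0 < δ ∧ I.card * δ ≤ ε := by
    refine ⟨ε / (I.card + 1), by positivity, ?_⟩
    have : (0 : ℝ) < I.card + 1 := by positivity
    rw [mul_div_assoc', div_le_iff₀ this]
    nlinarith
  have hex : ∀ x : Fin 4 × (Fin 4 → ℕ), ∃ N0 : ℕ, x ∈ I → BadE κ lam x → ∀ N, N0 ≤ N →
      ((Fib κ lam N x).ncard : ℝ) ≤ δ * N := by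
    intro x
    by_cases hx : x ∈ I ∧ BadE κ lam x
    · obtain ⟨N0, h⟩ := fib_count hκ hlam (hI0 x hx.1) hx.2 δ hδ
      exact ⟨N0, fun _ _ => h⟩
    · exact ⟨0, fun h1 h2 => absurd ⟨h1, h2⟩ hx⟩
  choose N0 hN0 using hex
  refine ⟨I.sup N0, fun N hN => ?_⟩
  classical
  have hadmfin : {D : Fin 4 → ℕ | Adm κ lam N D}.Finite := by
    refine (Fintype.piFinset (fun _ : Fin 4 => Icc 1 N)).finite_toSet.subset fun D hD => ?_
    rw [mem_coe, Fintype.mem_piFinset]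
    intro i
    have h0 : ∀ i, 1 ≤ D i := fun i => Nat.pos_of_ne_zero (hD.sq i).ne_zero
    rw [mem_Icc]
    refine ⟨h0 i, le_trans ?_ hD.le⟩
    exact Finset.single_le_prod' (f := D) (fun j _ => h0 j) (mem_univ i)
  have hfibfin : ∀ x, (Fib κ lam N x).Finite := fun x => hadmfin.subset fun D hD => hD.1
  have hsub : {D : Fin 4 → ℕ | Adm κ lam N D ∧ ¬ Big k0 D ∧ ∀ i, NC κ lam D i} ⊆
      ⋃ x ∈ I.filter (BadE κ lam), Fib κ lam N x := by
    rintro D ⟨hA, hB, hNC⟩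
    obtain ⟨i, hi⟩ : ∃ i, ∀ j, j ≠ i → ∀ p ∈ (D j).primeFactors, p < 2 ^ k0 := by
      by_cases h : ∃ i, ∃ p ∈ (D i).primeFactors, 2 ^ k0 ≤ p
      · obtain ⟨i, p, hp, hpk⟩ := h
        refine ⟨i, fun j hj q hq => ?_⟩
        by_contra hcon
        exact hB ⟨i, j, hj.symm, ⟨p, hp, hpk⟩, ⟨q, hq, not_lt.1 hcon⟩⟩
      · push Not at h
        exact ⟨0, fun j _ p hp => h j p hp⟩
    have hdiv : ∀ j, j ≠ i → D j ∣ P0 := by
      intro j hj
      rw [hP0, ← Nat.prod_primeFactors_of_squarefree (hA.sq j)]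
      refine prod_dvd_prod_of_subset _ _ _ fun p hp => ?_
      rw [mem_filter, mem_range]
      exact ⟨hi j hj p hp, Nat.prime_of_mem_primeFactors hp⟩
    rw [Set.mem_iUnion₂]
    refine ⟨(i, Function.update D i 1), ?_, hA, ?_⟩
    · rw [mem_filter, hI, mem_product, Fintype.mem_piFinset]
      refine ⟨⟨mem_univ _, fun j => ?_⟩, ?_⟩
      · rw [Nat.mem_divisors]
        refine ⟨?_, hP0ne⟩
        by_cases hj : j = i
        · subst hj
          simp only [Function.update_self]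
          exact one_dvd _
        · simp only [Function.update_of_ne hj]
          exact hdiv j hj
      · obtain ⟨j, l, hj, hl, h⟩ := hNC i
        refine ⟨j, l, hj, hl, ?_⟩
        simp only [Function.update_of_ne hj, Function.update_of_ne hl]
        exact h
    · simp only [Function.update_idem, Function.update_eq_self]
  have h1 := Set.ncard_le_ncard hsub (Set.Finite.biUnion (finite_toSet _) fun x _ => hfibfin x)
  have h2 := h1.trans (Finset.set_ncard_biUnion_le _ _)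
  have h3 : ({D : Fin 4 → ℕ | Adm κ lam N D ∧ ¬ Big k0 D ∧ ∀ i, NC κ lam D i}.ncard : ℝ) ≤
      ∑ x ∈ I.filter (BadE κ lam), ((Fib κ lam N x).ncard : ℝ) := by exact_mod_cast h2
  calc ({D : Fin 4 → ℕ | Adm κ lam N D ∧ ¬ Big k0 D ∧ ∀ i, NC κ lam D i}.ncard : ℝ)
      ≤ ∑ x ∈ I.filter (BadE κ lam), ((Fib κ lam N x).ncard : ℝ) := h3
    _ ≤ ∑ x ∈ I.filter (BadE κ lam), δ * N := by
        refine sum_le_sum fun x hx => ?_
        rw [mem_filter] at hx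
        exact hN0 x hx.1 hx.2 N ((Finset.le_sup hx.1).trans hN)
    _ = (I.filter (BadE κ lam)).card * (δ * N) := by rw [sum_const, nsmul_eq_mul]
    _ ≤ I.card * (δ * N) := by
        refine mul_le_mul_of_nonneg_right ?_ (by positivity)
        exact_mod_cast card_filter_le _ _
    _ = I.card * δ * N := by ring
    _ ≤ ε * N := by gcongr

end Pool.Agent.D0H30.QT
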