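import Pool.Agent.D0H30.QT.Ferm
import Pool.Agent.D0H30.QT.Desc
import Pool.Agent.D0H30.QT.Small
import Pool.Agent.D0H30.QT.Fin
import Pool.Agent.D0H70.QT.W
import Pool.Agent.D0H70.QT.Blk
import Pool.Agent.D0H25.QT.Sum
import Pool.Agent.D0H98.QT.Mert
import Pool.Agent.D0H98.QT.Dec
import Pool.Agent.D0H98.QT.Eng

set_option autoImplicit false

namespace Pool.Agent.D0H30.QT

open Finset Filter Topology

/-- the numbers `d` for which there is a nontrivial point have density zero -/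
theorem main : Tendsto
    (fun N : ℕ => ({d : ℤ | d ≠ 0 ∧ d.natAbs ≤ N ∧ HasPt d}.ncard : ℝ) / N) atTop (𝓝 0) :=
  fin (Pool.Agent.D0H98.QT.eng (Pool.Agent.D0H70.QT.blk Pool.Agent.D0H70.QT.w)
    (Pool.Agent.D0H25.QT.sum Pool.Agent.D0H98.QT.mert) Pool.Agent.D0H98.QT.dec) small (desc ferm)

/-- the nonzero integers of absolute value at most `N` -/
lemma ncard_all (N : ℕ) : {d : ℤ | d ≠ 0 ∧ d.natAbs ≤ N}.ncard = 2 * N := by
  have h : {d : ℤ | d ≠ 0 ∧ d.natAbs ≤ N} = ((Icc (-(N : ℤ)) N).erase 0 : Finset ℤ) := by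
    ext d
    rw [coe_erase, coe_Icc, Set.mem_diff, Set.mem_Icc, Set.mem_singleton_iff]
    constructor
    · rintro ⟨h1, h2⟩
      exact ⟨⟨by omega, by omega⟩, h1⟩
    · rintro ⟨⟨h1, h2⟩, h3⟩
      exact ⟨h3, by omega⟩
  rw [h, Set.ncard_coe_finset, card_erase_of_mem (by rw [mem_Icc]; omega), Int.card_Icc]
  omega

/-- density one -/
theorem density_one {G : ℤ → Prop} (hG : ∀ d, d ≠ 0 → ¬ HasPt d → G d) : Tendsto
    (fun N : ℕ => ({d : ℤ | d ≠ 0 ∧ d.natAbs ≤ N ∧ G d}.ncard : ℝ) / (2 * N)) atTop (𝓝 1) := by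
  have h1 : Tendsto (fun N : ℕ => 1 -
      ({d : ℤ | d ≠ 0 ∧ d.natAbs ≤ N ∧ HasPt d}.ncard : ℝ) / N) atTop (𝓝 1) := by
    have := main.const_sub 1
    rwa [sub_zero] at this
  have hfin : ∀ N : ℕ, {d : ℤ | d ≠ 0 ∧ d.natAbs ≤ N}.Finite := fun N =>
    (finite_toSet (Icc (-(N : ℤ)) N)).subset fun d hd => by
      rw [coe_Icc, Set.mem_Icc]
      have := hd.2
      omega
  refine tendsto_of_tendsto_of_tendsto_of_le_of_le' h1 tendsto_const_nhds ?_ ?_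
  · filter_upwards [eventually_ge_atTop 1] with N hN
    have hN' : (0 : ℝ) < N := by exact_mod_cast hN
    have hsub : {d : ℤ | d ≠ 0 ∧ d.natAbs ≤ N} ⊆ {d : ℤ | d ≠ 0 ∧ d.natAbs ≤ N ∧ G d} ∪
        {d : ℤ | d ≠ 0 ∧ d.natAbs ≤ N ∧ HasPt d} := by
      rintro d ⟨h2, h3⟩
      by_cases h : HasPt d
      · exact Or.inr ⟨h2, h3, h⟩
      · exact Or.inl ⟨h2, h3, hG d h2 h⟩
    have h2 := (Set.ncard_le_ncard hsub (((hfin N).subset fun d hd => ⟨hd.1, hd.2.1⟩).union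
      ((hfin N).subset fun d hd => ⟨hd.1, hd.2.1⟩))).trans (Set.ncard_union_le _ _)
    rw [ncard_all] at h2
    have h3 : (2 * N : ℝ) ≤ ({d : ℤ | d ≠ 0 ∧ d.natAbs ≤ N ∧ G d}.ncard : ℝ) +
        ({d : ℤ | d ≠ 0 ∧ d.natAbs ≤ N ∧ HasPt d}.ncard : ℝ) := by exact_mod_cast h2
    have h4 : (0 : ℝ) ≤ ({d : ℤ | d ≠ 0 ∧ d.natAbs ≤ N ∧ HasPt d}.ncard : ℝ) := by positivity
    rw [le_div_iff₀ (by positivity)]
    have h5 : (1 - ({d : ℤ | d ≠ 0 ∧ d.natAbs ≤ N ∧ HasPt d}.ncard : ℝ) / N) * (2 * N) =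
        2 * N - 2 * ({d : ℤ | d ≠ 0 ∧ d.natAbs ≤ N ∧ HasPt d}.ncard : ℝ) := by
      field_simp
    rw [h5]
    linarith
  · filter_upwards [eventually_ge_atTop 1] with N hN
    have hN' : (0 : ℝ) < N := by exact_mod_cast hN
    have hsub : {d : ℤ | d ≠ 0 ∧ d.natAbs ≤ N ∧ G d} ⊆ {d : ℤ | d ≠ 0 ∧ d.natAbs ≤ N} :=
      fun d hd => ⟨hd.1, hd.2.1⟩
    have h2 := Set.ncard_le_ncard hsub (hfin N)
    rw [ncard_all] at h2
    rw [div_le_one (by positivity)]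
    exact_mod_cast h2

/-- homogeneous form -/
lemma hom_triv {d : ℤ} (hd : d ≠ 0) (h : ¬ HasPt d) {X Y Z : ℚ}
    (hp : (d : ℚ) * Y ^ 4 = X ^ 3 * Z - X * Z ^ 3) : Y = 0 := by
  by_contra hY
  have hd' : (d : ℚ) ≠ 0 := by exact_mod_cast hd
  have hZ : Z ≠ 0 := by
    rintro rfl
    have : (d : ℚ) * Y ^ 4 = 0 := by rw [hp]; ring
    exact (mul_ne_zero hd' (pow_ne_zero 4 hY)) this
  refine h ⟨X / Z, Y / Z, div_ne_zero hY hZ, ?_⟩
  field_simp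
  linear_combination hp

end Pool.Agent.D0H30.QT
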