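import Pool.Agent.D0H30.QT.Main

set_option autoImplicit false

namespace Pool.Agent.D0H30.QT

open Finset Filter Topology

/-- the rational points of the projective plane quartic `d Y⁴ = X³ Z - X Z³` -/
def RationalPoints (d : ℤ) : Set (Projectivization ℚ (Fin 3 → ℚ)) :=
  {P | (d : ℚ) * P.rep 1 ^ 4 = P.rep 0 ^ 3 * P.rep 2 - P.rep 0 * P.rep 2 ^ 3}

lemma v_ne (a c : ℚ) (h : a ≠ 0 ∨ c ≠ 0) : (![a, 0, c] : Fin 3 → ℚ) ≠ 0 := by
  intro h0
  rcases h with h | h
  · exact h (congrFun h0 0)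
  · exact h (congrFun h0 2)

/-- the point `(a : 0 : c)` -/
def pt (a c : ℚ) (h : a ≠ 0 ∨ c ≠ 0) : Projectivization ℚ (Fin 3 → ℚ) := Projectivization.mk ℚ ![a, 0, c] (v_ne a c h)

lemma pt_eq {a c a' c' : ℚ} {h : a ≠ 0 ∨ c ≠ 0} {h' : a' ≠ 0 ∨ c' ≠ 0} (he : pt a c h = pt a' c' h') :
    a * c' = a' * c := by
  unfold pt at he
  rw [Projectivization.mk_eq_mk_iff'] at he
  obtain ⟨t, ht⟩ := he
  have h0 := congrFun ht 0
  have h2 := congrFun ht 2
  simp at h0 h2
  rw [← h0, ← h2]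
  ring

lemma pt_mem {d : ℤ} {a c : ℚ} (h : a ≠ 0 ∨ c ≠ 0) (h0 : a ^ 3 * c = a * c ^ 3) :
    pt a c h ∈ RationalPoints d := by
  obtain ⟨t, ht⟩ := Projectivization.exists_smul_eq_mk_rep ℚ (![a, 0, c] : Fin 3 → ℚ) (v_ne a c h)
  have e0 := congrFun ht 0
  have e1 := congrFun ht 1
  have e2 := congrFun ht 2
  simp only [Pi.smul_apply, Units.smul_def, smul_eq_mul, Matrix.cons_val_zero, Matrix.cons_val_one,
    Matrix.cons_val, mul_zero, Fin.isValue] at e0 e1 e2
  show (d : ℚ) * (pt a c h).rep 1 ^ 4 = (pt a c h).rep 0 ^ 3 * (pt a c h).rep 2 -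
    (pt a c h).rep 0 * (pt a c h).rep 2 ^ 3
  unfold pt
  rw [← e0, ← e1, ← e2]
  linear_combination -(t : ℚ) ^ 4 * h0

lemma points_eq {d : ℤ} (hd : d ≠ 0) (h : ¬ HasPt d) : RationalPoints d =
    {pt 0 1 (Or.inr one_ne_zero), pt 1 0 (Or.inl one_ne_zero), pt 1 1 (Or.inl one_ne_zero),
      pt 1 (-1) (Or.inl one_ne_zero)} := by
  ext P
  constructor
  · intro hP
    have hP' : (d : ℚ) * P.rep 1 ^ 4 = P.rep 0 ^ 3 * P.rep 2 - P.rep 0 * P.rep 2 ^ 3 := hP
    have h1 : P.rep 1 = 0 := hom_triv hd h hP'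
    rw [h1] at hP'
    have h2 : P.rep 0 * P.rep 2 * (P.rep 0 - P.rep 2) * (P.rep 0 + P.rep 2) = 0 := by
      linear_combination -hP'
    have hne := P.rep_nonzero
    have key : ∀ (a c : ℚ) (hac : a ≠ 0 ∨ c ≠ 0) (t : ℚ), P.rep 0 = t * a → P.rep 2 = t * c →
        P = pt a c hac := by
      intro a c hac t ha hc
      rw [← P.mk_rep]
      unfold pt
      rw [Projectivization.mk_eq_mk_iff']
      refine ⟨t, ?_⟩
      ext i
      fin_cases i <;> simp [ha, hc, h1]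
    rcases mul_eq_zero.1 h2 with h3 | h3
    · rcases mul_eq_zero.1 h3 with h4 | h4
      · rcases mul_eq_zero.1 h4 with h5 | h5
        · left
          exact key _ _ _ (P.rep 2) (by rw [h5, mul_zero]) (by rw [mul_one])
        · right; left
          exact key _ _ _ (P.rep 0) (by rw [mul_one]) (by rw [h5, mul_zero])
      · right; right; left
        exact key _ _ _ (P.rep 0) (by rw [mul_one]) (by rw [mul_one]; linarith)
    · right; right; right
      exact key _ _ _ (P.rep 0) (by rw [mul_one]) (by linarith)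
  · rintro (rfl | rfl | rfl | rfl) <;> exact pt_mem _ (by ring)

lemma points_card {d : ℤ} (hd : d ≠ 0) (h : ¬ HasPt d) : (RationalPoints d).ncard = 4 := by
  rw [points_eq hd h]
  have n1 : pt 0 1 (Or.inr one_ne_zero) ∉ ({pt 1 0 (Or.inl one_ne_zero), pt 1 1 (Or.inl one_ne_zero),
      pt 1 (-1) (Or.inl one_ne_zero)} : Set (Projectivization ℚ (Fin 3 → ℚ))) := by
    rintro (h | h | h) <;> exact absurd (pt_eq h) (by norm_num)
  have n2 : pt 1 0 (Or.inl one_ne_zero) ∉ ({pt 1 1 (Or.inl one_ne_zero),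
      pt 1 (-1) (Or.inl one_ne_zero)} : Set (Projectivization ℚ (Fin 3 → ℚ))) := by
    rintro (h | h) <;> exact absurd (pt_eq h) (by norm_num)
  have n3 : pt 1 1 (Or.inl one_ne_zero) ≠ pt 1 (-1) (Or.inl one_ne_zero) := fun h =>
    absurd (pt_eq h) (by norm_num)
  rw [Set.ncard_insert_of_notMem n1 (by simp), Set.ncard_insert_of_notMem n2 (by simp),
    Set.ncard_pair n3]

end Pool.Agent.D0H30.QT
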